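import Pool.Agent.T6.H10.SA.Fin

set_option autoImplicit false
set_option maxHeartbeats 4000000

/-!
# Shifted averages of completed L-functions
-/

namespace Pool.Agent.T6.H10.SA

open Complex Filter Topology Set MeasureTheory
open Pool.Agent.R838.TW (Sy)
open Pool.Agent.Y671.GL (CF CG TopL AppX nu nu_eq nu_mono nu_le le_nu nu_shift)
open Pool.Agent.Y693.GL (GoodY GY)
open scoped ComplexConjugate

/-- The shifted average `exp (i θ) Λ (s + h) + w exp (-i θ) Λ (s - h)`. -/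
noncomputable def avg (Λ : ℂ → ℂ) (w : ℂ) (h θ : ℝ) (s : ℂ) : ℂ :=
  cexp (θ * I) * Λ (s + h) + w * cexp (-(θ * I)) * Λ (s - h)

/-- The zeros of `A` with imaginary part in `(T, 2T]` which are off the line `Re s = a`, or multiple, or not followed by
a zero at a regular distance. -/
def EA (A : ℂ → ℂ) (κ ε a T : ℝ) : Set ℂ :=
  {s | (A s = 0 ∧ T < s.im ∧ s.im ≤ 2 * T) ∧ (s.re ≠ a ∨ deriv A s = 0 ∨ ¬ Fol A κ ε s)}

section
variable {Λ : ℂ → ℂ} {v w : ℂ} {a κ : ℝ}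

lemma unit_v (hv : v ≠ 0) (θ : ℝ) : ‖v / ‖v‖ * cexp (θ * I)‖ = 1 := by
  rw [norm_mul, norm_div, Complex.norm_real, norm_norm, Complex.norm_exp_ofReal_mul_I, mul_one]
  exact div_self (norm_ne_zero_iff.2 hv)

lemma sh_avg (_hv : v ≠ 0) (hw : v * w = conj v) (h θ : ℝ) :
    sh (v / ‖v‖ * cexp (θ * I)) h (fun z => v * Λ ((a : ℂ) + z)) =
      fun z => (v ^ 2 / ‖v‖) * avg Λ w h θ ((a : ℂ) + z) := by
  funext z
  unfold sh avg
  have e1 : conj (v / ‖v‖ * cexp (θ * I)) = v * w / ‖v‖ * cexp (-(θ * I)) := by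
    rw [map_mul, map_div₀, Complex.conj_ofReal, ← Complex.exp_conj, map_mul, Complex.conj_ofReal, Complex.conj_I, hw,
      mul_neg]
  rw [e1]
  have e2 : (a : ℂ) + (z + h) = a + z + h := by ring
  have e3 : (a : ℂ) + (z - h) = a + z - h := by ring
  simp only
  rw [e2, e3]
  ring

/-- every phase occurs -/
lemma sh_avg' (hv : v ≠ 0) (hw : v * w = conj v) (h : ℝ) {u : ℂ} (hu : ‖u‖ = 1) : ∃ θ : ℝ,
    sh u h (fun z => v * Λ ((a : ℂ) + z)) = fun z => (v ^ 2 / ‖v‖) * avg Λ w h θ ((a : ℂ) + z) := by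
  obtain ⟨p, hp⟩ : ∃ p : ℂ, p = u / (v / ‖v‖) := ⟨_, rfl⟩
  have hv1 : v / ‖v‖ ≠ 0 := div_ne_zero hv (by exact_mod_cast norm_ne_zero_iff.2 hv)
  have hp1 : ‖p‖ = 1 := by
    rw [hp, norm_div, norm_div, Complex.norm_real, norm_norm, hu, div_self (norm_ne_zero_iff.2 hv), div_one]
  refine ⟨p.arg, ?_⟩
  have h1 : cexp (p.arg * I) = p := by
    have := Complex.norm_mul_exp_arg_mul_I p
    rw [hp1, Complex.ofReal_one, one_mul] at this
    exact this
  rw [← sh_avg hv hw, h1, hp, mul_div_cancel₀ _ hv1]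

lemma Fol_shift {A : ℂ → ℂ} {c : ℂ} (hc : c ≠ 0) (κ ε : ℝ) (z : ℂ) :
    Fol (fun z => c * A ((a : ℂ) + z)) κ ε z ↔ Fol A κ ε ((a : ℂ) + z) := by
  have hd : ∀ w : ℂ, deriv (fun z => c * A ((a : ℂ) + z)) w = c * deriv A ((a : ℂ) + w) := by
    intro w
    rw [deriv_const_mul_field, deriv_comp_const_add]
  have him : ((a : ℂ) + z).im = z.im := by simp
  unfold Fol
  rw [him]
  constructor
  · rintro ⟨g, h3, h4, h5, h6, h7⟩
    refine ⟨g, h3, h4, ?_, ?_, ?_⟩
    · have := (mul_eq_zero.1 h5).resolve_left hc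
      rwa [add_assoc]
    · intro h
      rw [add_assoc] at h
      rw [hd, h, mul_zero] at h6
      exact h6 rfl
    · intro w hw1 hw2 hw3
      have e : (a : ℂ) + (w - a) = w := by ring
      have h8 := h7 (w - a) (by
        show c * A ((a : ℂ) + (w - a)) = 0
        rw [e, hw1, mul_zero]) (by simpa using hw2) (by simpa using hw3)
      rcases h8 with h8 | h8
      · left; rw [← h8, e]
      · right
        rw [add_assoc, ← h8, e]
  · rintro ⟨g, h3, h4, h5, h6, h7⟩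
    rw [add_assoc] at h5 h6
    refine ⟨g, h3, h4, ?_, ?_, ?_⟩
    · show c * A ((a : ℂ) + (z + g * I)) = 0
      rw [h5, mul_zero]
    · rw [hd]; exact mul_ne_zero hc h6
    · intro w hw1 hw2 hw3
      have hw : A ((a : ℂ) + w) = 0 := (mul_eq_zero.1 hw1).resolve_left hc
      have h8 := h7 ((a : ℂ) + w) hw (by simpa using hw2) (by simpa using hw3)
      rcases h8 with h8 | h8
      · left; exact add_left_cancel h8
      · right
        rw [add_assoc] at h8
        exact add_left_cancel h8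

lemma AZ_image {A : ℂ → ℂ} {c : ℂ} (hc : c ≠ 0) (T : ℝ) :
    (fun z => (a : ℂ) + z) '' AZ (fun z => c * A ((a : ℂ) + z)) T = {s | A s = 0 ∧ T < s.im ∧ s.im ≤ 2 * T} := by
  ext s
  constructor
  · rintro ⟨z, ⟨h1, h2, h3⟩, rfl⟩
    refine ⟨(mul_eq_zero.1 h1).resolve_left hc, ?_, ?_⟩
    · simpa using h2
    · simpa using h3
  · rintro ⟨h1, h2, h3⟩
    refine ⟨s - a, ⟨?_, ?_, ?_⟩, by simp⟩
    · show c * A ((a : ℂ) + (s - a)) = 0
      rw [add_sub_cancel, h1, mul_zero]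
    · simpa using h2
    · simpa using h3

lemma AE_image {A : ℂ → ℂ} {c : ℂ} (hc : c ≠ 0) (κ ε T : ℝ) :
    (fun z => (a : ℂ) + z) '' AE (fun z => c * A ((a : ℂ) + z)) κ ε T = EA A κ ε a T := by
  have hd : ∀ w : ℂ, deriv (fun z => c * A ((a : ℂ) + z)) w = c * deriv A ((a : ℂ) + w) := by
    intro w
    rw [deriv_const_mul_field, deriv_comp_const_add]
  ext s
  constructor
  · rintro ⟨z, ⟨⟨h1, h4⟩, h2, h3⟩, rfl⟩
    refine ⟨⟨(mul_eq_zero.1 h1).resolve_left hc, ?_, ?_⟩, ?_⟩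
    · simpa using h2
    · simpa using h3
    · rcases h4 with h4 | h4 | h4
      · left
        simpa using h4
      · right; left
        rw [hd] at h4
        exact (mul_eq_zero.1 h4).resolve_left hc
      · right; right
        rwa [Fol_shift hc] at h4
  · rintro ⟨⟨h1, h2, h3⟩, h4⟩
    refine ⟨s - a, ⟨⟨?_, ?_⟩, ?_, ?_⟩, by simp⟩
    · show c * A ((a : ℂ) + (s - a)) = 0
      rw [add_sub_cancel, h1, mul_zero]
    · rcases h4 with h4 | h4 | h4
      · left
        simp only [Complex.sub_re, Complex.ofReal_re]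
        exact fun h => h4 (by linarith)
      · right; left
        rw [hd, add_sub_cancel, h4, mul_zero]
      · right; right
        rw [Fol_shift hc, add_sub_cancel]
        exact h4
    · simpa using h2
    · simpa using h3

lemma avg_diff (hΛ : Differentiable ℂ Λ) (h θ : ℝ) : Differentiable ℂ (avg Λ w h θ) := by
  unfold avg
  have h1 : Differentiable ℂ (fun z : ℂ => Λ (z + h)) := hΛ.comp (by fun_prop)
  have h2 : Differentiable ℂ (fun z : ℂ => Λ (z - h)) := hΛ.comp (by fun_prop)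
  exact (h1.const_mul _).add (h2.const_mul _)

/-- the symmetric function of a completed L-function -/
lemma sy_of {H X Z : ℂ → ℂ} (hC : CG κ H X Z) (hst : ∀ s : ℂ, X s = 0 → |s.re| ≤ 1 / 2) : Sy X where
  diff := hC.cf.diff
  symm := hC.cf.symm
  slow := hC.slow
  ne := ⟨1, fun h => by
    have := hst 1 h
    norm_num at this⟩

/-- there are zeros -/
lemma has_zero {H X Z : ℂ → ℂ} (hκ : 1 / 2 ≤ κ) (hC : CG κ H X Z) (hA : AppX X) : ∃ z, X z = 0 := by
  obtain ⟨c2, T0, hc2, hT0, htot⟩ := Pool.Agent.Y423.GL.totd κ H X Z hκ hC hA 1 le_rfl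
  have hl : 0 < Real.log T0 := Real.log_pos (by linarith)
  obtain ⟨S, hS, h7⟩ := htot 0 T0 le_rfl (by simpa using hl.le)
  have h8 : 0 < ∑ s ∈ S, (analyticOrderNatAt (iteratedDeriv 0 X) s : ℝ) := by
    refine lt_of_lt_of_le ?_ h7
    have : 0 < T0 := by linarith
    positivity
  have hne : S.Nonempty := by
    by_contra hcon
    rw [Finset.not_nonempty_iff_eq_empty] at hcon
    rw [hcon] at h8
    simp at h8
  obtain ⟨s, hs⟩ := hne
  refine ⟨s, ?_⟩
  have := (hS s hs).1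
  rwa [iteratedDeriv_zero] at this

/-- **Main theorem**, for one completed L-function. -/
theorem lam_main {H Z : ℂ → ℂ} (hκ : 1 / 2 ≤ κ) (hv : v ≠ 0) (hw : v * w = conj v)
    (hG : GY κ H (fun z => v * Λ ((a : ℂ) + z)) Z) (hA : AppX (fun z => v * Λ ((a : ℂ) + z)))
    (hst : ∀ s : ℂ, (fun z => v * Λ ((a : ℂ) + z)) s = 0 → |s.re| ≤ 1 / 2) (hΛ : Differentiable ℂ Λ) :
    (∀ h θ T : ℝ, 0 < h → {s | avg Λ w h θ s = 0 ∧ T < s.im ∧ s.im ≤ 2 * T}.Finite) ∧
    (∀ h : ℝ, 0 < h → ((∀ (θ : ℝ) (s : ℂ), avg Λ w h θ s = 0 → s.re = a) ↔ ∀ ρ : ℂ, Λ ρ = 0 → |ρ.re - a| ≤ h)) ∧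
    ∀ ε : ℝ, 0 < ε → ∃ c C : ℝ, 0 < c ∧ 0 < C ∧ ∀ h θ T : ℝ, 0 < h → h ≤ 1 / 2 → 2 ≤ T →
      (nu (avg Λ w h θ) (EA (avg Λ w h θ) κ ε a T) : ℝ) ≤ C * Real.exp (-(c * (h * Real.log T))) *
        nu (avg Λ w h θ) {s | avg Λ w h θ s = 0 ∧ T < s.im ∧ s.im ≤ 2 * T} := by
  have h0 := sy_of hG.cg hst
  have hz0 := has_zero hκ hG.cg hA
  have hκ0 : 0 < κ := by linarith
  have hc : v ^ 2 / ‖v‖ ≠ 0 := div_ne_zero (pow_ne_zero _ hv) (by exact_mod_cast norm_ne_zero_iff.2 hv)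
  have hfin : ∀ h θ T : ℝ, 0 < h → (AZ (fun z => (v ^ 2 / ‖v‖) * avg Λ w h θ ((a : ℂ) + z)) T).Finite := by
    intro h θ T hh
    have := AZ_fin h0 hst hz0 (unit_v hv θ) hh T
    rwa [sh_avg hv hw] at this
  refine ⟨?_, ?_, ?_⟩
  · intro h θ T hh
    rw [← AZ_image (a := a) (A := avg Λ w h θ) hc T]
    exact (hfin h θ T hh).image _
  · intro h hh
    have key := exact_iff h0 hst hz0 hh
    constructor
    · intro hall ρ hρ
      have h1 := key.1 (fun u hu z hz => by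
        obtain ⟨θ, hθ⟩ := sh_avg' (Λ := Λ) (a := a) hv hw h hu
        rw [hθ] at hz
        have h2 := hall θ _ ((mul_eq_zero.1 hz).resolve_left hc)
        simpa using h2) (ρ - a) (by
          show v * Λ ((a : ℂ) + (ρ - a)) = 0
          rw [add_sub_cancel, hρ, mul_zero])
      simpa using h1
    · intro hρ θ s hs
      have h1 := key.2 (fun z hz => by
        have h2 : v * Λ ((a : ℂ) + z) = 0 := hz
        have h3 := hρ _ ((mul_eq_zero.1 h2).resolve_left hv)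
        simpa using h3) (v / ‖v‖ * cexp (θ * I)) (unit_v hv θ) (s - a) (by
          rw [sh_avg hv hw]
          show v ^ 2 / ‖v‖ * avg Λ w h θ ((a : ℂ) + (s - a)) = 0
          rw [add_sub_cancel, hs, mul_zero])
      simp only [Complex.sub_re, Complex.ofReal_re] at h1
      linarith
  · intro ε hε
    obtain ⟨c, C, hc', hC, H1⟩ := main_prop hκ h0 hst hz0 hG.cg.cf (goodR_of hκ0 hG.good) hG.top hε
    refine ⟨c, C, hc', hC, fun h θ T hh hh2 hT => ?_⟩
    have h1 := H1 T h _ hT hh hh2 (unit_v hv θ)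
    rw [sh_avg hv hw] at h1
    have hd := avg_diff (w := w) hΛ h θ
    rw [nu_shift hd hc a (hfin h θ T hh), nu_shift hd hc a ((hfin h θ T hh).subset fun s hs => ⟨hs.1.1, hs.2⟩),
      AZ_image hc, AE_image hc] at h1
    exact h1

end

end Pool.Agent.T6.H10.SA
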