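import Pool.Agent.T6.H10.SA.Loc

set_option autoImplicit false

/-!
# Shifted averages: zeros on the axis near good heights
-/

namespace Pool.Agent.T6.H10.SA

open Complex Filter Topology Set
open Pool.Agent.W366.SDNL (seg)
open Pool.Agent.R838.CR (rot first_zero)
open scoped ComplexConjugate

section
variable {X : ℂ → ℂ} {u : ℂ} {h A η : ℝ} {S : Set ℂ}

lemma cos_far {x ε : ℝ} (hε : 0 < ε) (hε1 : ε ≤ 1 / 2) (hx : |x - Real.pi| ≤ ε) : Real.cos x ≤ -(7 / 8) := by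
  have h1 : Real.cos x = -Real.cos (x - Real.pi) := by rw [Real.cos_sub_pi, neg_neg]
  have h2 := Real.one_sub_sq_div_two_le_cos (x := x - Real.pi)
  have h3 : (x - Real.pi) ^ 2 ≤ (1 / 2) ^ 2 := by
    rw [← sq_abs]
    exact pow_le_pow_left₀ (abs_nonneg _) (hx.trans hε1) 2
  rw [h1]
  norm_num at h3
  linarith

/-- the next zero on the axis -/
lemma next_zero (hd : Differentiable ℂ X) (hs : ∀ z : ℂ, X (-(conj z)) = conj (X z)) (hS : Convex ℝ S)
    (hF : ∀ z ∈ S, X z ≠ 0 ∧ ‖logDeriv X z - (A : ℂ)‖ ≤ η * A) (hA : 0 < A) (hη : 0 ≤ η) {ε : ℝ} (hε : 0 < ε)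
    (hε1 : ε ≤ 1 / 2) (hηε : 5 * η ≤ ε / 8) (hu : ‖u‖ = 1) {y0 : ℝ}
    (hmem : ∀ t ∈ Icc (0 : ℝ) (4 / A), (h : ℂ) + I * y0 + t * I ∈ S) (h0 : sh u h X (I * y0) = 0) :
    deriv (sh u h X) (I * y0) ≠ 0 ∧ ∃ g : ℝ, 0 < g ∧ |A * g - Real.pi| ≤ ε ∧
      sh u h X (I * ((y0 + g : ℝ) : ℂ)) = 0 ∧ deriv (sh u h X) (I * ((y0 + g : ℝ) : ℂ)) ≠ 0 ∧
      ∀ y : ℝ, y0 < y → y < y0 + g → sh u h X (I * y) ≠ 0 := by
  obtain ⟨z0, hz0⟩ : ∃ z0 : ℂ, z0 = (h : ℂ) + I * y0 := ⟨_, rfl⟩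
  rw [← hz0] at hmem
  have h4A : 0 ≤ 4 / A := by positivity
  have hz0S : z0 ∈ S := by
    have := hmem 0 ⟨le_rfl, h4A⟩
    simpa using this
  obtain ⟨b, hb⟩ : ∃ b : ℝ, b = (u * X z0).im := ⟨_, rfl⟩
  have hre : (u * X z0).re = 0 := by
    have h1 := sh_axis (u := u) (h := h) hs y0
    rw [h0, ← hz0] at h1
    have h2 : (0 : ℝ) = 2 * (u * X z0).re := by exact_mod_cast h1
    linarith
  have hc0 : u * X z0 = I * b := by
    apply Complex.ext
    · rw [hre]; simp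
    · rw [hb]; simp
  obtain ⟨M, hM⟩ : ∃ M : ℝ, M = ‖X z0‖ := ⟨_, rfl⟩
  have hM0 : 0 < M := by rw [hM]; exact norm_pos_iff.2 (hF z0 hz0S).1
  have hbM : |b| = M := by
    have := congrArg norm hc0
    rw [norm_mul, norm_mul, hu, one_mul, Complex.norm_I, one_mul, Complex.norm_real, Real.norm_eq_abs] at this
    rw [← this, hM]
  have hb0 : b ≠ 0 := by
    intro h; rw [h, abs_zero] at hbM; linarith
  have hη1 : η ≤ 1 / 40 := by linarith
  have hpt : ∀ t : ℝ, (h : ℂ) + I * ((y0 + t : ℝ) : ℂ) = z0 + t * I := by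
    intro t; rw [hz0]; push_cast; ring
  have hrot : ∀ t : ℝ, 0 ≤ t → A * t ≤ 4 →
      ‖u * X (z0 + t * I) - cexp (((A * t : ℝ) : ℂ) * I) * (I * b)‖ ≤ 5 * η * M ∧
      ‖u * X (z0 + t * I)‖ ≤ 5 / 4 * M := by
    intro t ht hAt
    obtain ⟨h1, h2⟩ := rot hd hS hF hA.le hη hη1 (z := z0) ht hAt (fun t' ht' => hmem t' ⟨ht'.1, ht'.2.trans (by
      rw [le_div_iff₀ hA]; linarith)⟩)
    constructor
    · rw [← hc0, show u * X (z0 + t * I) - cexp (((A * t : ℝ) : ℂ) * I) * (u * X z0) =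
        u * (X (z0 + t * I) - cexp (((A * t : ℝ) : ℂ) * I) * X z0) by ring, norm_mul, hu, one_mul, hM]
      exact h1
    · rw [norm_mul, hu, one_mul, hM]
      exact h2
  have hexp : ∀ t : ℝ, cexp (((A * t : ℝ) : ℂ) * I) * (I * b) =
      ((-(b * Real.sin (A * t)) : ℝ) : ℂ) + ((b * Real.cos (A * t) : ℝ) : ℂ) * I := by
    intro t
    rw [Complex.exp_mul_I, ← Complex.ofReal_cos, ← Complex.ofReal_sin]
    push_cast
    linear_combination (b : ℂ) * Complex.sin ((A : ℂ) * (t : ℂ)) * Complex.I_mul_I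
  obtain ⟨g, hg⟩ : ∃ g : ℝ → ℝ, g = fun t : ℝ => -(u * X (z0 + (t : ℂ) * I)).re / b := ⟨_, rfl⟩
  obtain ⟨k, hk⟩ : ∃ k : ℝ → ℝ, k = fun t : ℝ => -(u * (deriv X (z0 + (t : ℂ) * I) * I)).re / (A * b) := ⟨_, rfl⟩
  have hgder : ∀ t : ℝ, 0 ≤ t → A * t ≤ 4 → HasDerivAt g (A * k t) t := by
    intro t _ _
    have h1 := (has_axis (u := u) (h := h) hd (y0 + t)).comp_const_add y0 t
    simp only [hpt] at h1
    have h2 : HasDerivAt (fun t : ℝ => (u * X (z0 + t * I)).re) ((u * (deriv X (z0 + t * I) * I)).re) t := by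
      refine h1.congr_of_eventuallyEq (Eventually.of_forall fun x => ?_)
      simp only [hpt]
    have h3 := h2.neg.div_const b
    rw [hg, hk]
    refine h3.congr_deriv ?_
    field_simp
  have hg0 : g 0 = 0 := by
    rw [hg]
    simp only [Complex.ofReal_zero, zero_mul, add_zero, hre, neg_zero, zero_div]
  have hgs : ∀ t : ℝ, 0 ≤ t → A * t ≤ 4 → |g t - Real.sin (A * t)| ≤ 5 * η := by
    intro t ht hAt
    obtain ⟨h1, -⟩ := hrot t ht hAt
    rw [hexp] at h1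
    have h2 := (Complex.abs_re_le_norm _).trans h1
    have e1 : (u * X (z0 + t * I) - (((-(b * Real.sin (A * t)) : ℝ) : ℂ) + ((b * Real.cos (A * t) : ℝ) : ℂ) * I)).re =
        -(b * (g t - Real.sin (A * t))) := by
      rw [hg]
      simp only [Complex.sub_re, Complex.add_re, Complex.ofReal_re, Complex.mul_re, Complex.I_re, mul_zero,
        Complex.ofReal_im, Complex.I_im, mul_one, sub_self, add_zero]
      field_simp
      ring
    rw [e1, abs_neg, abs_mul, hbM] at h2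
    have h3 : M * |g t - Real.sin (A * t)| ≤ M * (5 * η) := by linarith
    exact le_of_mul_le_mul_left h3 hM0
  have hks : ∀ t : ℝ, 0 ≤ t → A * t ≤ 4 → |k t - Real.cos (A * t)| ≤ 3 * (5 * η) := by
    intro t ht hAt
    obtain ⟨h1, h2⟩ := hrot t ht hAt
    have htS : z0 + t * I ∈ S := hmem t ⟨ht, by rw [le_div_iff₀ hA]; linarith⟩
    obtain ⟨h3, h4⟩ := hF _ htS
    have e0 : u * (deriv X (z0 + t * I) * I) = logDeriv X (z0 + t * I) * (u * X (z0 + t * I)) * I := by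
      rw [logDeriv_apply]
      field_simp
    have h5 : ‖u * (deriv X (z0 + t * I) * I) - (A : ℂ) * (cexp (((A * t : ℝ) : ℂ) * I) * (I * b)) * I‖ ≤
        25 / 4 * η * A * M := by
      rw [e0, show logDeriv X (z0 + t * I) * (u * X (z0 + t * I)) * I -
        (A : ℂ) * (cexp (((A * t : ℝ) : ℂ) * I) * (I * b)) * I =
        (logDeriv X (z0 + t * I) - A) * (u * X (z0 + t * I)) * I + (A : ℂ) *
          (u * X (z0 + t * I) - cexp (((A * t : ℝ) : ℂ) * I) * (I * b)) * I by ring]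
      refine (norm_add_le _ _).trans ?_
      rw [norm_mul (_ * _) I, norm_mul (_ * _) I, norm_mul (logDeriv X (z0 + t * I) - (A : ℂ)), norm_mul (A : ℂ),
        Complex.norm_I, mul_one, mul_one, Complex.norm_real, Real.norm_eq_abs, abs_of_pos hA]
      have h6 : ‖logDeriv X (z0 + t * I) - (A : ℂ)‖ * ‖u * X (z0 + t * I)‖ ≤ η * A * (5 / 4 * M) :=
        mul_le_mul h4 h2 (norm_nonneg _) (by positivity)
      have h7 : A * ‖u * X (z0 + t * I) - cexp (((A * t : ℝ) : ℂ) * I) * (I * b)‖ ≤ A * (5 * η * M) :=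
        mul_le_mul_of_nonneg_left h1 hA.le
      linarith
    rw [hexp] at h5
    have h6 := (Complex.abs_re_le_norm _).trans h5
    have e1 : (u * (deriv X (z0 + t * I) * I) - (A : ℂ) * (((-(b * Real.sin (A * t)) : ℝ) : ℂ) +
        ((b * Real.cos (A * t) : ℝ) : ℂ) * I) * I).re = -(A * b * (k t - Real.cos (A * t))) := by
      have e2 : (A : ℂ) * (((-(b * Real.sin (A * t)) : ℝ) : ℂ) + ((b * Real.cos (A * t) : ℝ) : ℂ) * I) * I =
          ((-(A * (b * Real.cos (A * t))) : ℝ) : ℂ) + ((-(A * (b * Real.sin (A * t))) : ℝ) : ℂ) * I := by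
        push_cast
        linear_combination (A : ℂ) * ((b : ℂ) * Complex.cos ((A : ℂ) * (t : ℂ))) * Complex.I_mul_I
      rw [e2, hk]
      simp only [Complex.sub_re, Complex.add_re, Complex.ofReal_re, Complex.mul_re, Complex.I_re, mul_zero,
        Complex.ofReal_im, Complex.I_im, mul_one, sub_self, add_zero]
      field_simp
      ring
    rw [e1, abs_neg, abs_mul, abs_mul, abs_of_pos hA, hbM] at h6
    have h7 : A * M * |k t - Real.cos (A * t)| ≤ A * M * (3 * (5 * η)) := by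
      have : 0 ≤ η * A * M := by positivity
      nlinarith
    exact le_of_mul_le_mul_left h7 (by positivity)
  have hder0 : ∀ t : ℝ, 0 ≤ t → A * t ≤ 4 → k t ≠ 0 → deriv (sh u h X) (I * ((y0 + t : ℝ) : ℂ)) ≠ 0 := by
    intro t _ _ hkt h1
    have h2 := sh_axis_deriv (u := u) (h := h) hd hs (y0 + t)
    rw [h1, zero_mul, hpt] at h2
    have h3 : (0 : ℝ) = 2 * (u * (deriv X (z0 + t * I) * I)).re := by exact_mod_cast h2
    apply hkt
    rw [hk]
    simp only
    rw [show (u * (deriv X (z0 + t * I) * I)).re = 0 by linarith]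
    simp
  obtain ⟨g1, hg1, hg2, hg3, hg4⟩ := first_zero hA hε hε1 hηε hg0 hgder hgs hks
  have hpi2 := Real.pi_lt_d2
  have hAg : A * g1 ≤ 4 := by
    have := (abs_le.1 hg2).2
    linarith
  refine ⟨?_, g1, hg1, hg2, ?_, ?_, ?_⟩
  · have h1 := hder0 0 le_rfl (by rw [mul_zero]; norm_num) ?_
    · simpa using h1
    · have h2 := (abs_le.1 (hks 0 le_rfl (by rw [mul_zero]; norm_num))).1
      rw [mul_zero, Real.cos_zero] at h2
      intro h3
      rw [h3] at h2
      linarith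
  · rw [sh_axis hs, hpt]
    have h1 : (u * X (z0 + g1 * I)).re = 0 := by
      rw [hg] at hg3
      simp only at hg3
      rcases div_eq_zero_iff.1 hg3 with h2 | h2
      · linarith
      · exact absurd h2 hb0
    rw [h1]
    simp
  · refine hder0 g1 hg1.le hAg ?_
    intro h3
    have h2 := (abs_le.1 (hks g1 hg1.le hAg)).1
    have h4 := cos_far hε hε1 hg2
    rw [h3] at h2
    have h5 := (abs_le.1 (hks g1 hg1.le hAg)).2
    rw [h3] at h5
    linarith
  · intro y h1 h2 h3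
    refine hg4 (y - y0) (by linarith) (by linarith) ?_
    have h4 := sh_axis (u := u) (h := h) hs y
    rw [h3, show (h : ℂ) + I * (y : ℂ) = z0 + ((y - y0 : ℝ) : ℂ) * I by rw [hz0]; push_cast; ring] at h4
    have h5 : (0 : ℝ) = 2 * (u * X (z0 + ((y - y0 : ℝ) : ℂ) * I)).re := by exact_mod_cast h4
    rw [hg]
    simp only
    rw [show (u * X (z0 + ((y - y0 : ℝ) : ℂ) * I)).re = 0 by linarith]
    simp

/-- there is a zero on every vertical interval of length `4 / A` -/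
lemma some_zero (hd : Differentiable ℂ X) (hs : ∀ z : ℂ, X (-(conj z)) = conj (X z)) (hS : Convex ℝ S)
    (hF : ∀ z ∈ S, X z ≠ 0 ∧ ‖logDeriv X z - (A : ℂ)‖ ≤ η * A) (hA : 0 < A) (hη : 0 ≤ η) (hη1 : η ≤ 1 / 1000)
    (hu : ‖u‖ = 1) {y0 : ℝ}
    (hmem : ∀ t ∈ Icc (0 : ℝ) (4 / A), (h : ℂ) + I * y0 + t * I ∈ S) :
    ∃ y : ℝ, y0 ≤ y ∧ y ≤ y0 + 4 / A ∧ sh u h X (I * y) = 0 := by
  obtain ⟨z0, hz0⟩ : ∃ z0 : ℂ, z0 = (h : ℂ) + I * y0 := ⟨_, rfl⟩
  rw [← hz0] at hmem
  have h4A : 0 ≤ 4 / A := by positivity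
  have hz0S : z0 ∈ S := by
    have := hmem 0 ⟨le_rfl, h4A⟩
    simpa using this
  obtain ⟨M, hM⟩ : ∃ M : ℝ, M = ‖X z0‖ := ⟨_, rfl⟩
  have hM0 : 0 < M := by rw [hM]; exact norm_pos_iff.2 (hF z0 hz0S).1
  obtain ⟨p, hp⟩ : ∃ p : ℝ, p = (u * X z0).re := ⟨_, rfl⟩
  obtain ⟨q, hq⟩ : ∃ q : ℝ, q = (u * X z0).im := ⟨_, rfl⟩
  have hpq : p ^ 2 + q ^ 2 = M ^ 2 := by
    have h1 : ‖u * X z0‖ = M := by rw [norm_mul, hu, one_mul, hM]
    rw [← h1, ← Complex.normSq_eq_norm_sq, Complex.normSq_apply, hp, hq]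
    ring
  have hpt : ∀ t : ℝ, (h : ℂ) + I * ((y0 + t : ℝ) : ℂ) = z0 + t * I := by
    intro t; rw [hz0]; push_cast; ring
  obtain ⟨g, hg⟩ : ∃ g : ℝ → ℝ, g = fun t : ℝ => (u * X (z0 + (t : ℂ) * I)).re := ⟨_, rfl⟩
  have hgv : ∀ t : ℝ, 0 ≤ t → A * t ≤ 4 → |g t - (p * Real.cos (A * t) - q * Real.sin (A * t))| ≤ 5 * η * M := by
    intro t ht hAt
    obtain ⟨h1, -⟩ := rot hd hS hF hA.le hη (by linarith) (z := z0) ht hAt (fun t' ht' => hmem t' ⟨ht'.1, ht'.2.trans (by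
      rw [le_div_iff₀ hA]; linarith)⟩)
    have h2 : ‖u * X (z0 + t * I) - cexp (((A * t : ℝ) : ℂ) * I) * (u * X z0)‖ ≤ 5 * η * M := by
      rw [show u * X (z0 + t * I) - cexp (((A * t : ℝ) : ℂ) * I) * (u * X z0) =
        u * (X (z0 + t * I) - cexp (((A * t : ℝ) : ℂ) * I) * X z0) by ring, norm_mul, hu, one_mul, hM]
      exact h1
    have h3 := (Complex.abs_re_le_norm _).trans h2
    have e1 : (u * X (z0 + t * I) - cexp (((A * t : ℝ) : ℂ) * I) * (u * X z0)).re =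
        g t - (p * Real.cos (A * t) - q * Real.sin (A * t)) := by
      rw [Complex.exp_mul_I, ← Complex.ofReal_cos, ← Complex.ofReal_sin, hg, hp, hq]
      generalize Real.cos (A * t) = cc
      generalize Real.sin (A * t) = ss
      generalize u * X z0 = P
      simp only [Complex.sub_re, Complex.mul_re, Complex.add_re, Complex.add_im, Complex.mul_im, Complex.ofReal_re,
        Complex.ofReal_im, Complex.I_re, Complex.I_im]
      ring
    rwa [e1] at h3
  have hgc : ContinuousOn g (Icc 0 (4 / A)) := by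
    rw [hg]
    have h1 : Continuous (fun t : ℝ => (u * X (z0 + t * I)).re) := by
      have := hd.continuous
      fun_prop
    exact h1.continuousOn
  by_contra hcon
  push Not at hcon
  have hne : ∀ t ∈ Icc (0 : ℝ) (4 / A), g t ≠ 0 := by
    intro t ht h1
    refine hcon (y0 + t) (by linarith [ht.1]) (by linarith [ht.2]) ?_
    rw [sh_axis hs, hpt]
    rw [hg] at h1
    simp only at h1
    rw [h1]
    simp
  have hpi1 := Real.pi_gt_d2
  have hpi2 := Real.pi_lt_d2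
  norm_num at hpi1 hpi2
  -- four points
  have hAt : ∀ x : ℝ, A * (x / A) = x := fun x => by field_simp
  have hIcc : ∀ x : ℝ, 0 ≤ x → x ≤ 4 → x / A ∈ Icc (0 : ℝ) (4 / A) := by
    intro x h1 h2
    exact ⟨by positivity, by gcongr⟩
  have v0 := hgv 0 le_rfl (by rw [mul_zero]; norm_num)
  have v1 := hgv (Real.pi / 2 / A) (by positivity) (by rw [hAt]; linarith)
  have v2 := hgv (Real.pi / A) (by positivity) (by rw [hAt]; linarith)
  have v3 := hgv ((Real.pi * (5 / 4)) / A) (by positivity) (by rw [hAt]; linarith)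
  rw [hAt] at v1 v2 v3
  rw [mul_zero, Real.cos_zero, Real.sin_zero, mul_one, mul_zero, sub_zero] at v0
  rw [Real.cos_pi_div_two, Real.sin_pi_div_two] at v1
  rw [Real.cos_pi, Real.sin_pi] at v2
  have ec : Real.cos (Real.pi * (5 / 4)) = -(Real.sqrt 2 / 2) := by
    rw [show Real.pi * (5 / 4) = Real.pi / 4 + Real.pi by ring, Real.cos_add_pi, Real.cos_pi_div_four]
  have es : Real.sin (Real.pi * (5 / 4)) = -(Real.sqrt 2 / 2) := by
    rw [show Real.pi * (5 / 4) = Real.pi / 4 + Real.pi by ring, Real.sin_add_pi, Real.sin_pi_div_four]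
  rw [ec, es] at v3
  have hsq : Real.sqrt 2 ^ 2 = 2 := Real.sq_sqrt (by norm_num)
  have hsq0 : 1.4 ≤ Real.sqrt 2 := by
    apply Real.le_sqrt_of_sq_le; norm_num
  have hsq1 : Real.sqrt 2 ≤ 1.5 := by
    rw [Real.sqrt_le_left (by norm_num)]; norm_num
  have hηM : 5 * η * M ≤ M / 200 := by nlinarith
  -- constant sign
  have hsign : (∀ t ∈ Icc (0 : ℝ) (4 / A), 0 < g t) ∨ (∀ t ∈ Icc (0 : ℝ) (4 / A), g t < 0) := by
    by_contra hno
    push Not at hno
    obtain ⟨⟨t1, ht1, h1⟩, ⟨t2, ht2, h2⟩⟩ := hno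
    have h3 : (0 : ℝ) ∈ g '' Icc (0 : ℝ) (4 / A) := by
      have hpre : IsPreconnected (g '' Icc (0 : ℝ) (4 / A)) := isPreconnected_Icc.image _ hgc
      exact hpre.ordConnected.out (mem_image_of_mem _ ht1) (mem_image_of_mem _ ht2) ⟨h1, h2⟩
    obtain ⟨t, ht, h4⟩ := h3
    exact hne t ht h4
  rw [abs_le] at v0 v1 v2 v3
  have m0 := hIcc 0 le_rfl (by norm_num)
  rw [zero_div] at m0
  have m1 := hIcc (Real.pi / 2) (by positivity) (by linarith)
  have m2 := hIcc Real.pi (by positivity) (by linarith)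
  have m3 := hIcc (Real.pi * (5 / 4)) (by positivity) (by linarith)
  have hMq : |p| ≤ M / 200 → M * (9 / 10) ≤ |q| := by
    intro h1
    have h2 : p ^ 2 ≤ (M / 200) ^ 2 := by rw [← sq_abs]; exact pow_le_pow_left₀ (abs_nonneg _) h1 2
    by_contra h3
    push Not at h3
    have h4 : q ^ 2 ≤ (M * (9 / 10)) ^ 2 := by rw [← sq_abs]; exact pow_le_pow_left₀ (abs_nonneg _) h3.le 2
    nlinarith
  rcases hsign with hpos | hneg
  · have g0 := hpos _ m0
    have g1 := hpos _ m1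
    have g2 := hpos _ m2
    have g3 := hpos _ m3
    have hpb : |p| ≤ M / 200 := by rw [abs_le]; constructor <;> linarith
    have hqb := hMq hpb
    have hq2 : q ≤ M / 200 := by linarith
    have hq3 : q < 0 := by
      by_contra h5
      push Not at h5
      rw [abs_of_nonneg h5] at hqb
      linarith
    rw [abs_of_neg hq3] at hqb
    nlinarith [abs_le.1 hpb]
  · have g0 := hneg _ m0
    have g1 := hneg _ m1
    have g2 := hneg _ m2
    have g3 := hneg _ m3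
    have hpb : |p| ≤ M / 200 := by rw [abs_le]; constructor <;> linarith
    have hqb := hMq hpb
    have hq3 : 0 < q := by
      by_contra h5
      push Not at h5
      rw [abs_of_nonpos h5] at hqb
      linarith
    rw [abs_of_pos hq3] at hqb
    nlinarith [abs_le.1 hpb]

end

end Pool.Agent.T6.H10.SA
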