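import Pool.Agent.T6.H10.SA.Loc
import Pool.Agent.Y671.LD.Unit
import Pool.Agent.W32.SD.SCount
import Pool.Agent.Y671.GL.Spec2

set_option autoImplicit false
set_option maxHeartbeats 4000000

/-!
# Shifted averages: the number of zeros near good heights and in unit windows
-/

namespace Pool.Agent.T6.H10.SA

open Complex Filter Topology Set MeasureTheory
open Pool.Agent.H24R2.DZ (NN)
open Pool.Agent.Y671.LD (jcount)
open Pool.Agent.Y671.GL (CF FarL TopL GoodX)
open scoped ComplexConjugate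

section
variable {X : ℂ → ℂ} {u : ℂ} {h a A η ε0 R t0 r : ℝ}

/-- from the local situation to a half disc -/
lemma farS_of_NN (hd : Differentiable ℂ X) (hr : 0 < r) (hN : NN a η (fun z => X (I * t0 + r * z))) :
    FarS X (a / r) η (r / 1000) (20 * r) t0 := by
  intro z hz
  obtain ⟨h1, h2⟩ := hz
  have hrc : (r : ℂ) ≠ 0 := by exact_mod_cast hr.ne'
  have e1 : I * (t0 : ℂ) + r * ((z - I * t0) / r) = z := by
    rw [mul_div_cancel₀ _ hrc]; ring
  have e2 : ((z - I * t0) / (r : ℂ)).re = z.re / r := by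
    rw [Complex.div_ofReal_re]; simp
  obtain ⟨h3, h4⟩ := hN.far ((z - I * t0) / r) (by
    rw [e2, le_div_iff₀ hr]; linarith) (by
    rw [norm_div, Complex.norm_real, Real.norm_eq_abs, abs_of_pos hr, div_le_iff₀ hr]; exact h2)
  rw [e1] at h3
  have h5 : logDeriv (fun z => X (I * t0 + r * z)) ((z - I * t0) / r) = r * logDeriv X z := by
    have h6 : HasDerivAt (fun w : ℂ => I * (t0 : ℂ) + r * w) r ((z - I * t0) / r) := by
      have := ((hasDerivAt_id ((z - I * t0) / (r : ℂ))).const_mul (r : ℂ)).const_add (I * (t0 : ℂ))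
      exact this.congr_deriv (mul_one _)
    have h7 := (HasDerivAt.comp ((z - I * t0) / (r : ℂ)) (hd (I * (t0 : ℂ) + r * ((z - I * t0) / r))).hasDerivAt h6).deriv
    rw [logDeriv_apply, logDeriv_apply]
    have h8 : deriv (fun z => X (I * t0 + r * z)) ((z - I * t0) / r) = deriv X z * r := by
      have := h7
      rw [e1] at this
      exact this
    rw [h8, e1]
    ring
  refine ⟨h3, ?_⟩
  rw [h5] at h4
  have h6 : (r : ℂ) * logDeriv X z - a = r * (logDeriv X z - ((a / r : ℝ) : ℂ)) := by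
    push_cast
    field_simp
  rw [h6, norm_mul, Complex.norm_real, Real.norm_eq_abs, abs_of_pos hr] at h4
  have h7 : r * ‖logDeriv X z - ((a / r : ℝ) : ℂ)‖ ≤ r * (η * (a / r)) := by
    calc _ ≤ η * a := h4
      _ = _ := by field_simp
  exact le_of_mul_le_mul_left h7 hr

lemma near_of_NN (hr : 0 < r) (hN : NN a η (fun z => X (I * t0 + r * z))) (z : ℂ) (h1 : |z.re| ≤ r / 1000)
    (h2 : ‖z - I * t0‖ ≤ 20 * r) : ‖X z‖ ≤ ‖X (I * t0 + r)‖ * Real.exp (-(9 / 10 * a)) := by
  have hrc : (r : ℂ) ≠ 0 := by exact_mod_cast hr.ne'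
  have e1 : I * (t0 : ℂ) + r * ((z - I * t0) / r) = z := by
    rw [mul_div_cancel₀ _ hrc]; ring
  have e2 : ((z - I * t0) / (r : ℂ)).re = z.re / r := by
    rw [Complex.div_ofReal_re]; simp
  have h3 := hN.near ((z - I * t0) / r) (by
    rw [e2, abs_div, abs_of_pos hr, div_le_iff₀ hr]; linarith) (by
    rw [norm_div, Complex.norm_real, Real.norm_eq_abs, abs_of_pos hr, div_le_iff₀ hr]; exact h2)
  rw [e1, mul_one] at h3
  exact h3

lemma sh_norm_le (hu : ‖u‖ = 1) (z : ℂ) : ‖sh u h X z‖ ≤ ‖X (z + h)‖ + ‖X (z - h)‖ := by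
  unfold sh
  refine (norm_add_le _ _).trans ?_
  rw [norm_mul, norm_mul, Complex.norm_conj, hu, one_mul, one_mul]

lemma sh_norm_ge (hu : ‖u‖ = 1) (z : ℂ) : ‖X (z + h)‖ - ‖X (z - h)‖ ≤ ‖sh u h X z‖ := by
  unfold sh
  have h1 := norm_sub_norm_le (u * X (z + h)) (-(conj u * X (z - h)))
  rw [norm_neg, norm_mul, norm_mul, Complex.norm_conj, hu, one_mul, one_mul, sub_neg_eq_add] at h1
  exact h1

/-- the number of zeros in the local situation -/
lemma count_loc (hd : Differentiable ℂ X) (ha : 1 ≤ a) (hη0 : 0 ≤ η) (hη : η ≤ 1 / 10) (hr : 0 < r)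
    (hN : NN a η (fun z => X (I * t0 + r * z))) (hu : ‖u‖ = 1) (hh : 0 < h) (hhr : h ≤ r) (hb : 1 ≤ a * (h / r))
    (S : Finset ℂ) (hS : ∀ s ∈ S, |s.re| ≤ r * (11 / 10) ∧ |s.im - t0| ≤ r / 2) :
    ∑ s ∈ S, (analyticOrderNatAt (sh u h X) s : ℝ) ≤ 36 / Real.log (9 / 5) * a := by
  have hFar := farS_of_NN hd hr hN
  have hrc : (r : ℂ) ≠ 0 := by exact_mod_cast hr.ne'
  have hn : ∀ w : ℂ, ‖w‖ ≤ |w.re| + |w.im| := Complex.norm_le_abs_re_add_abs_im
  obtain ⟨c, hc⟩ : ∃ c : ℂ, c = I * t0 + r * 3 := ⟨_, rfl⟩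
  have hcre : c.re = 3 * r := by rw [hc]; simp; ring
  have hcim : c.im = t0 := by rw [hc]; simp
  have hbig : ∀ z : ℂ, ‖z - c‖ ≤ 10 * r → ‖X z‖ ≤ ‖X c‖ * Real.exp (34 * a) := by
    intro z hz
    have h1 := Pool.Agent.W32.SD.big (by linarith) (by linarith) hN ((z - I * t0) / r) ?_
    · have e1 : I * (t0 : ℂ) + r * ((z - I * t0) / r) = z := by
        rw [mul_div_cancel₀ _ hrc]; ring
      rw [e1, ← hc] at h1
      exact h1
    · rw [norm_div, Complex.norm_real, Real.norm_eq_abs, abs_of_pos hr, div_le_iff₀ hr]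
      have e2 : z - I * t0 = (z - c) + r * 3 := by rw [hc]; ring
      rw [e2]
      refine (norm_add_le _ _).trans ?_
      rw [norm_mul, Complex.norm_real, Real.norm_eq_abs, abs_of_pos hr]
      have : ‖(3 : ℂ)‖ = 3 := by simp
      rw [this]
      linarith
  have hHS : ∀ x : ℝ, -r ≤ x → x ≤ r → c + x ∈ HS (r / 1000) (20 * r) t0 := by
    intro x h1 h2
    refine ⟨?_, (hn _).trans ?_⟩
    · rw [Complex.add_re, hcre, Complex.ofReal_re]; linarith
    · have e1 : (c + x - I * t0).re = 3 * r + x := by simp [hcre]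
      have e2 : (c + x - I * t0).im = 0 := by simp [hcim]
      rw [e1, e2, abs_zero, abs_of_nonneg (by linarith)]
      linarith
  have hA0 : 0 < a / r := by positivity
  have k1 : ‖X c‖ ≤ ‖X (c + h)‖ := by
    have := cmp_lt hd hFar hA0 (by linarith) hh (z := c) (by
      have := hHS 0 (by linarith) hr.le
      simpa using this) (hHS h (by linarith) hhr)
    exact this.le
  have k2 : ‖X (c - h)‖ ≤ ‖X (c + h)‖ * Real.exp (-(a / r * (1 - η) * (2 * h))) := by
    have h5 : c - h + ((2 * h : ℝ) : ℂ) = c + h := by push_cast; ring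
    have := cmp hd hFar (z := c - h) (t := 2 * h) (by linarith) (by
      have := hHS (-h) (by linarith) (by linarith)
      simpa [sub_eq_add_neg] using this) (by rw [h5]; exact hHS h (by linarith) hhr)
    rwa [h5] at this
  have k3 : Real.exp (-(a / r * (1 - η) * (2 * h))) ≤ 1 / 2 := by
    have h1 : a / r * (1 - η) * (2 * h) = 2 * (1 - η) * (a * (h / r)) := by field_simp
    have h2 : 1 ≤ a / r * (1 - η) * (2 * h) := by
      rw [h1]
      nlinarith
    have h3 : Real.exp (-(a / r * (1 - η) * (2 * h))) ≤ Real.exp (-1) := Real.exp_le_exp.2 (by linarith)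
    refine h3.trans ?_
    rw [Real.exp_neg, inv_eq_one_div]
    have := Real.add_one_le_exp (1 : ℝ)
    apply one_div_le_one_div_of_le <;> linarith
  have k4 : ‖X c‖ ≤ 2 * ‖sh u h X c‖ := by
    have h1 := sh_norm_ge (h := h) (X := X) hu c
    have h2 : ‖X (c + h)‖ * Real.exp (-(a / r * (1 - η) * (2 * h))) ≤ ‖X (c + h)‖ * (1 / 2) :=
      mul_le_mul_of_nonneg_left k3 (norm_nonneg _)
    linarith
  have hXc : 0 < ‖X c‖ := by
    have := hHS 0 (by linarith) hr.le
    simp only [Complex.ofReal_zero, add_zero] at this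
    exact norm_pos_iff.2 (hFar _ this).1
  have hne : sh u h X c ≠ 0 := by
    intro h0
    rw [h0, norm_zero] at k4
    linarith
  have h36 : (4 : ℝ) ≤ Real.exp (2 * a) := by
    have h1 := Real.add_one_le_exp a
    have h2 : Real.exp (2 * a) = Real.exp a * Real.exp a := by rw [← Real.exp_add]; ring_nf
    rw [h2]
    nlinarith
  have key := jcount (sh_diff (u := u) (h := h) hd) (c := c) (r := 5 * r) (R := 9 * r) (A := 36 * a) (by positivity)
    (by linarith) hne ?_ S ?_
  · rw [show 9 * r / (5 * r) = 9 / 5 by field_simp] at key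
    refine key.trans (le_of_eq ?_)
    ring
  · intro z hz
    have h1 := hbig (z + h) (by
      rw [show z + h - c = (z - c) + h by ring]
      refine (norm_add_le _ _).trans ?_
      rw [Complex.norm_real, Real.norm_eq_abs, abs_of_pos hh]
      linarith)
    have h2 := hbig (z - h) (by
      rw [show z - h - c = (z - c) - h by ring]
      refine (norm_sub_le _ _).trans ?_
      rw [Complex.norm_real, Real.norm_eq_abs, abs_of_pos hh]
      linarith)
    have h3 := sh_norm_le (h := h) (X := X) hu z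
    calc ‖sh u h X z‖ ≤ 2 * (‖X c‖ * Real.exp (34 * a)) := by linarith
      _ ≤ 2 * ((2 * ‖sh u h X c‖) * Real.exp (34 * a)) := by
          have := mul_le_mul_of_nonneg_right k4 (Real.exp_pos (34 * a)).le
          linarith
      _ = 4 * (Real.exp (34 * a) * ‖sh u h X c‖) := by ring
      _ ≤ Real.exp (2 * a) * (Real.exp (34 * a) * ‖sh u h X c‖) :=
          mul_le_mul_of_nonneg_right h36 (by positivity)
      _ = Real.exp (36 * a) * ‖sh u h X c‖ := by
          rw [← mul_assoc, ← Real.exp_add]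
          congr 2
          ring
  · intro s hs
    obtain ⟨h1, h2⟩ := hS s hs
    refine (hn _).trans ?_
    rw [Complex.sub_re, Complex.sub_im, hcre, hcim]
    have h3 : |s.re - 3 * r| ≤ |s.re| + 3 * r := by
      refine (abs_sub _ _).trans ?_
      rw [abs_of_pos (by linarith : (0 : ℝ) < 3 * r)]
    linarith

/-- to the right of the strip -/
lemma far_right {κ : ℝ} {H Z : ℂ → ℂ} (hκ : 1 / 2 ≤ κ) (hX : CF κ H X Z) : ∃ T0 : ℝ, 20 ≤ T0 ∧
    ∀ t : ℝ, T0 ≤ t → FarS X (κ * Real.log t) (1 / 2) 1 9 t := by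
  obtain ⟨K1, T1, hK1, hT1, hgam⟩ := hX.gam 10 (by norm_num)
  obtain ⟨c3, K3, hc3, hK3, hrgt⟩ := hX.rgt (1 / 2) (by norm_num)
  have hκ0 : 0 < κ := by linarith
  refine ⟨max T1 (max 20 (Real.exp (2 * (K1 + K3) / κ))), (le_max_left _ _).trans (le_max_right _ _), ?_⟩
  intro t ht z hz
  have ht1 : T1 ≤ t := (le_max_left _ _).trans ht
  have ht2 : 20 ≤ t := ((le_max_left _ _).trans (le_max_right _ _)).trans ht
  have ht3 : Real.exp (2 * (K1 + K3) / κ) ≤ t := ((le_max_right _ _).trans (le_max_right _ _)).trans ht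
  have htp : 0 < t := by linarith
  have hlog : 2 * (K1 + K3) / κ ≤ Real.log t := by
    rw [Real.le_log_iff_exp_le htp]; exact ht3
  have hL : 2 * (K1 + K3) ≤ κ * Real.log t := by
    rw [div_le_iff₀ hκ0] at hlog
    linarith
  obtain ⟨h1, h2⟩ := hz
  obtain ⟨v, hv⟩ : ∃ v : ℂ, v = z - I * t := ⟨_, rfl⟩
  have hzv : z = I * t + v := by rw [hv]; ring
  have hvr : v.re = z.re := by rw [hv]; simp
  have hvn : ‖v‖ ≤ 10 := by rw [hv]; linarith
  obtain ⟨g1, g2, g3, -, -⟩ := hgam t v ht1 hvn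
  rw [← hzv] at g1 g2 g3
  have him : 0 < z.im := by
    have h3 := (abs_le.1 ((Complex.abs_im_le_norm v).trans hvn)).1
    have h4 : z.im = t + v.im := by rw [hzv]; simp
    linarith
  obtain ⟨r1, r2, r3⟩ := hrgt (1 / 2 + z) (by
    have : (1 / 2 + z).re = 1 / 2 + z.re := by simp
    rw [this]; linarith)
  have hZne : Z (1 / 2 + z) ≠ 0 := by
    intro h0
    rw [h0, norm_zero] at r1
    linarith
  have heq : X =ᶠ[𝓝 z] fun w => H w * Z (1 / 2 + w) := by
    have : {w : ℂ | 0 < w.im} ∈ 𝓝 z := (isOpen_lt continuous_const Complex.continuous_im).mem_nhds him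
    filter_upwards [this] with w hw
    exact hX.eq w hw
  have hZd : DifferentiableAt ℂ (fun w => Z (1 / 2 + w)) z := by
    have := hX.diffZ
    have h3 : Differentiable ℂ (fun w => Z (1 / 2 + w)) := this.comp (by fun_prop)
    exact h3 z
  have hXz : X z = H z * Z (1 / 2 + z) := heq.self_of_nhds
  have hld : logDeriv X z = logDeriv H z + logDeriv Z (1 / 2 + z) := by
    have e1 : logDeriv X z = logDeriv (fun w => H w * Z (1 / 2 + w)) z := by
      rw [logDeriv_apply, logDeriv_apply, heq.deriv_eq, hXz]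
    rw [e1, logDeriv_mul z g2 hZne g1 hZd]
    congr 1
    rw [logDeriv_apply, logDeriv_apply]
    have h3 : HasDerivAt (fun w : ℂ => 1 / 2 + w) 1 z := (hasDerivAt_id z).const_add _
    have h4 := (HasDerivAt.comp z (hX.diffZ (1 / 2 + z)).hasDerivAt h3).deriv
    have h5 : deriv (fun w => Z (1 / 2 + w)) z = deriv Z (1 / 2 + z) * 1 := h4
    rw [h5, mul_one]
  refine ⟨?_, ?_⟩
  · rw [hXz]
    exact mul_ne_zero g2 hZne
  · rw [hld]
    have e2 : logDeriv H z + logDeriv Z (1 / 2 + z) - ((κ * Real.log t : ℝ) : ℂ) =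
        (logDeriv H z - ((κ * Real.log t : ℝ) : ℂ)) + logDeriv Z (1 / 2 + z) := by ring
    rw [e2]
    refine (norm_add_le _ _).trans ?_
    linarith

/-- the number of zeros in unit windows -/
theorem count_unit {κ : ℝ} {H Z : ℂ → ℂ} (hκ : 1 / 2 ≤ κ) (hX : CF κ H X Z) : ∃ C T0 : ℝ, 0 < C ∧ 2 ≤ T0 ∧
    ∀ (t h : ℝ) (u : ℂ), T0 ≤ t → 0 < h → h ≤ 1 / 2 → 1 / 2 ≤ h * Real.log t → ‖u‖ = 1 → ∀ S : Finset ℂ,
    (∀ s ∈ S, |s.re| ≤ 1 / 2 ∧ |s.im - t| ≤ 1) → ∑ s ∈ S, (analyticOrderNatAt (sh u h X) s : ℝ) ≤ C * Real.log t := by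
  obtain ⟨K1, T1, hK1, hT1, hgam⟩ := hX.gam 10 (by norm_num)
  obtain ⟨K2, T2, hK2, hT2, hgro⟩ := hX.gro 10 (by norm_num)
  obtain ⟨c3, K3, hc3, hK3, hrgt⟩ := hX.rgt (1 / 2) (by norm_num)
  obtain ⟨T3, hT3, hfar⟩ := far_right hκ hX
  obtain ⟨K, hK⟩ : ∃ K : ℝ, K = K1 + K2 + |Real.log c3| + 2 := ⟨_, rfl⟩
  have hl3 := abs_nonneg (Real.log c3)
  have hK0 : 2 ≤ K := by rw [hK]; linarith
  have hd := hX.diff
  have hκ0 : 0 < κ := by linarith
  have hl65 : 0 < Real.log (6 / 5) := Real.log_pos (by norm_num)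
  refine ⟨(10 * κ + 5 * K) / Real.log (6 / 5), max (max T1 T2) T3, by positivity,
    hT1.trans ((le_max_left _ _).trans (le_max_left _ _)), ?_⟩
  intro t h u ht hh hh2 hhl hu S hS
  have ht1 : T1 ≤ t := ((le_max_left _ _).trans (le_max_left _ _)).trans ht
  have ht2 : T2 ≤ t := ((le_max_right _ _).trans (le_max_left _ _)).trans ht
  have ht3 : T3 ≤ t := (le_max_right _ _).trans ht
  have ht20 : 20 ≤ t := hT3.trans ht3
  have htp : 0 < t := by linarith
  have hlog : 1 ≤ Real.log t := by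
    rw [Real.le_log_iff_exp_le htp]
    have := Real.exp_one_lt_d9
    norm_num at this
    linarith
  have hn : ∀ w : ℂ, ‖w‖ ≤ |w.re| + |w.im| := Complex.norm_le_abs_re_add_abs_im
  have hFar := hfar t ht3
  -- the function near `i t`
  have hXeq : ∀ v : ℂ, ‖v‖ ≤ 10 → X (I * t + v) = H (I * t + v) * Z (1 / 2 + (I * t + v)) := by
    intro v hv
    apply hX.eq
    have h2 := (abs_le.1 ((Complex.abs_im_le_norm v).trans hv)).1
    simp
    linarith
  obtain ⟨P, hP⟩ : ∃ P : ℝ, P = ‖H (I * t)‖ := ⟨_, rfl⟩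
  have hP0 : 0 < P := by
    obtain ⟨-, g2, -, -, -⟩ := hgam t 0 ht1 (by simp)
    rw [add_zero] at g2
    rw [hP]
    exact norm_pos_iff.2 g2
  have hup : ∀ v : ℂ, ‖v‖ ≤ 10 → ‖X (I * t + v)‖ ≤ Real.exp ((10 * κ + K2) * Real.log t + K1) * P := by
    intro v hv
    obtain ⟨-, -, -, -, g5⟩ := hgam t v ht1 hv
    have h1 := hgro t v ht2 hv
    rw [hXeq v hv, norm_mul]
    have h2 : t ^ K2 = Real.exp (K2 * Real.log t) := by
      rw [Real.rpow_def_of_pos htp, mul_comm]
    rw [h2] at h1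
    have h3 : v.re ≤ 10 := (Complex.re_le_norm v).trans hv
    have h4 : κ * Real.log t * v.re ≤ 10 * κ * Real.log t := by
      have : 0 ≤ κ * Real.log t := by positivity
      nlinarith
    rw [← hP] at g5
    calc ‖H (I * t + v)‖ * ‖Z (1 / 2 + (I * t + v))‖ ≤
        (Real.exp (κ * Real.log t * v.re + K1) * P) * Real.exp (K2 * Real.log t) :=
          mul_le_mul g5 h1 (norm_nonneg _) (by positivity)
      _ = Real.exp (κ * Real.log t * v.re + K1 + K2 * Real.log t) * P := by
          rw [Real.exp_add (κ * Real.log t * v.re + K1)]; ring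
      _ ≤ _ := by
          refine mul_le_mul_of_nonneg_right (Real.exp_le_exp.2 ?_) hP0.le
          nlinarith
  obtain ⟨c, hc⟩ : ∃ c : ℂ, c = I * t + ((3 : ℝ) : ℂ) := ⟨_, rfl⟩
  have hcre : c.re = 3 := by rw [hc]; simp
  have hcim : c.im = t := by rw [hc]; simp
  have hHS : ∀ x : ℝ, -1 ≤ x → x ≤ 1 → c + x ∈ HS 1 9 t := by
    intro x h1 h2
    refine ⟨?_, (hn _).trans ?_⟩
    · rw [Complex.add_re, hcre, Complex.ofReal_re]; linarith
    · have e1 : (c + x - I * t).re = 3 + x := by simp [hcre]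
      have e2 : (c + x - I * t).im = 0 := by simp [hcim]
      rw [e1, e2, abs_zero, abs_of_nonneg (by linarith)]
      linarith
  have hA0 : 0 < κ * Real.log t := by positivity
  have k2 : ‖X (c - h)‖ ≤ ‖X (c + h)‖ * Real.exp (-(κ * Real.log t * (1 - 1 / 2) * (2 * h))) := by
    have h5 : c - h + ((2 * h : ℝ) : ℂ) = c + h := by push_cast; ring
    have := cmp hd hFar (z := c - h) (t := 2 * h) (by linarith) (by
      have := hHS (-h) (by linarith) (by linarith)
      simpa [sub_eq_add_neg] using this) (by rw [h5]; exact hHS h (by linarith) (by linarith))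
    rwa [h5] at this
  have k3 : Real.exp (-(κ * Real.log t * (1 - 1 / 2) * (2 * h))) ≤ 4 / 5 := by
    have h1 : 1 / 4 ≤ κ * Real.log t * (1 - 1 / 2) * (2 * h) := by
      have : κ * Real.log t * (1 - 1 / 2) * (2 * h) = κ * (h * Real.log t) := by ring
      rw [this]
      nlinarith
    have h3 : Real.exp (-(κ * Real.log t * (1 - 1 / 2) * (2 * h))) ≤ Real.exp (-(1 / 4)) :=
      Real.exp_le_exp.2 (by linarith)
    refine h3.trans ?_
    rw [Real.exp_neg, inv_eq_one_div]
    have := Real.add_one_le_exp (1 / 4 : ℝ)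
    rw [div_le_div_iff₀ (Real.exp_pos _) (by norm_num)]
    linarith
  have k4 : ‖X (c + h)‖ ≤ 5 * ‖sh u h X c‖ := by
    have h1 := sh_norm_ge (h := h) (X := X) hu c
    have h2 : ‖X (c + h)‖ * Real.exp (-(κ * Real.log t * (1 - 1 / 2) * (2 * h))) ≤ ‖X (c + h)‖ * (4 / 5) :=
      mul_le_mul_of_nonneg_left k3 (norm_nonneg _)
    linarith
  have k5 : Real.exp (-(K1 + |Real.log c3|)) * P ≤ ‖X (c + h)‖ := by
    obtain ⟨v, hv⟩ : ∃ v : ℂ, v = ((3 + h : ℝ) : ℂ) := ⟨_, rfl⟩
    have hcv : c + h = I * t + v := by rw [hc, hv]; push_cast; ring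
    have hvn : ‖v‖ ≤ 10 := by
      rw [hv, Complex.norm_real, Real.norm_eq_abs, abs_of_pos (by linarith)]
      linarith
    have hvr : v.re = 3 + h := by rw [hv]; simp
    obtain ⟨-, -, -, g4, -⟩ := hgam t v ht1 hvn
    obtain ⟨r1, -, -⟩ := hrgt (1 / 2 + (I * t + v)) (by
      have : (1 / 2 + (I * t + v)).re = 1 / 2 + v.re := by simp
      rw [this, hvr]; linarith)
    rw [hcv, hXeq v hvn, norm_mul]
    rw [← hP, hvr] at g4
    have h1 : Real.exp (-K1) * P ≤ ‖H (I * t + v)‖ := by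
      refine le_trans ?_ g4
      refine mul_le_mul_of_nonneg_right (Real.exp_le_exp.2 ?_) hP0.le
      have : 0 ≤ κ * Real.log t * (3 + h) := by positivity
      linarith
    have h2 : Real.exp (-|Real.log c3|) ≤ ‖Z (1 / 2 + (I * t + v))‖ := by
      refine le_trans ?_ r1
      rw [← Real.exp_log hc3]
      apply Real.exp_le_exp.2
      rw [Real.log_exp]
      exact neg_abs_le _
    calc Real.exp (-(K1 + |Real.log c3|)) * P = (Real.exp (-K1) * P) * Real.exp (-|Real.log c3|) := by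
          rw [neg_add, Real.exp_add]; ring
      _ ≤ _ := mul_le_mul h1 h2 (Real.exp_pos _).le (norm_nonneg _)
  have hne : sh u h X c ≠ 0 := by
    intro h0
    rw [h0, norm_zero, mul_zero] at k4
    have : 0 < Real.exp (-(K1 + |Real.log c3|)) * P := by positivity
    linarith
  have key := jcount (sh_diff (u := u) (h := h) hd) (c := c) (r := 5) (R := 6)
    (A := (10 * κ + 5 * K) * Real.log t) (by norm_num) (by norm_num) hne ?_ S ?_
  · refine key.trans (le_of_eq ?_)
    ring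
  · intro z hz
    have hz3 : ∀ x : ℝ, |x| ≤ 1 / 2 → ‖X (z + x)‖ ≤ Real.exp ((10 * κ + K2) * Real.log t + K1) * P := by
      intro x hx
      have h1 := hup (z + x - I * t) (by
        rw [show z + x - I * t = (z - c) + (((3 : ℝ) : ℂ) + x) by rw [hc]; ring]
        refine (norm_add_le _ _).trans ?_
        have h2 : ‖((3 : ℝ) : ℂ) + (x : ℂ)‖ ≤ 3 + |x| := by
          refine (norm_add_le _ _).trans ?_
          rw [Complex.norm_real, Complex.norm_real, Real.norm_eq_abs, Real.norm_eq_abs]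
          norm_num
        linarith)
      rwa [show I * t + (z + x - I * t) = z + (x : ℂ) by ring] at h1
    have h1 := hz3 h (by rw [abs_of_pos hh]; exact hh2)
    have h2 := hz3 (-h) (by rw [abs_neg, abs_of_pos hh]; exact hh2)
    rw [show z + ((-h : ℝ) : ℂ) = z - h by push_cast; ring] at h2
    have h3 := sh_norm_le (h := h) (X := X) hu z
    have h4 : P ≤ Real.exp (K1 + |Real.log c3|) * (5 * ‖sh u h X c‖) := by
      have h5 := k5.trans k4
      calc P = Real.exp (K1 + |Real.log c3|) * (Real.exp (-(K1 + |Real.log c3|)) * P) := by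
            rw [← mul_assoc, ← Real.exp_add]; simp
        _ ≤ _ := mul_le_mul_of_nonneg_left h5 (Real.exp_pos _).le
    have h10 : (10 : ℝ) ≤ Real.exp 3 := by
      have h5 := Real.exp_one_gt_d9
      norm_num at h5
      have h6 : Real.exp 3 = Real.exp 1 * Real.exp 1 * Real.exp 1 := by
        rw [← Real.exp_add, ← Real.exp_add]; norm_num
      rw [h6]
      have h7 : (7 : ℝ) ≤ Real.exp 1 * Real.exp 1 := by nlinarith
      nlinarith
    calc ‖sh u h X z‖ ≤ 2 * (Real.exp ((10 * κ + K2) * Real.log t + K1) * P) := by linarith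
      _ ≤ 2 * (Real.exp ((10 * κ + K2) * Real.log t + K1) *
            (Real.exp (K1 + |Real.log c3|) * (5 * ‖sh u h X c‖))) := by
          have := mul_le_mul_of_nonneg_left h4 (Real.exp_pos ((10 * κ + K2) * Real.log t + K1)).le
          linarith
      _ = 10 * (Real.exp ((10 * κ + K2) * Real.log t + K1) * Real.exp (K1 + |Real.log c3|)) *
            ‖sh u h X c‖ := by ring
      _ ≤ Real.exp 3 * (Real.exp ((10 * κ + K2) * Real.log t + K1) * Real.exp (K1 + |Real.log c3|)) *
            ‖sh u h X c‖ := by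
          refine mul_le_mul_of_nonneg_right (mul_le_mul_of_nonneg_right h10 (by positivity)) (norm_nonneg _)
      _ = Real.exp (3 + ((10 * κ + K2) * Real.log t + K1 + (K1 + |Real.log c3|))) * ‖sh u h X c‖ := by
          rw [← Real.exp_add, ← Real.exp_add]
      _ ≤ _ := by
          refine mul_le_mul_of_nonneg_right (Real.exp_le_exp.2 ?_) (norm_nonneg _)
          have h11 : 3 + K1 + K1 + |Real.log c3| ≤ (3 + 2 * K1 + |Real.log c3|) * Real.log t := by
            nlinarith
          rw [hK]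
          nlinarith
  · intro s hs
    obtain ⟨h1, h2⟩ := hS s hs
    refine (hn _).trans ?_
    rw [Complex.sub_re, Complex.sub_im, hcre, hcim]
    have h3 : |s.re - 3| ≤ |s.re| + 3 := by
      refine (abs_sub _ _).trans ?_
      norm_num
    linarith

end

end Pool.Agent.T6.H10.SA
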