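import Pool.Agent.R838.TW.Gro

set_option autoImplicit false

/-!
# De Bruijn's inequality for two points at the same height

`Φ` is a symmetric entire function of order less than two. If no zero `β + i γ` with `|β| > b` lies in the open disc
`|z - i γ|² < β² - b²`, then `|Φ (z - b)| ≤ |Φ (z + b)|` for `Re z > 0`.
-/

namespace Pool.Agent.T6.H10.SA

open MeasureTheory Set Filter Complex Topology Polynomial
open Pool.Agent.Y22.LM (q q_eq q_nonneg norm_eval_pow4)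
open Pool.Agent.R838.TW (Sy)
open scoped ComplexConjugate

lemma q_shift {β x b y : ℝ} (hb : 0 ≤ b) (hy : 0 ≤ y) (h : β ^ 2 ≤ y ^ 2 + b ^ 2 + x ^ 2) :
    q β x (y - b) ≤ q β x (y + b) := by
  rw [q_eq, q_eq]
  have h1 : 0 ≤ y * b * (y ^ 2 + b ^ 2 + x ^ 2 - β ^ 2) := mul_nonneg (mul_nonneg hy hb) (by linarith)
  nlinarith

/-- De Bruijn's inequality. -/
theorem shift_le {Φ : ℂ → ℂ} (h : Sy Φ) {b x t : ℝ} (hb : 0 ≤ b) (hx : 0 ≤ x)
    (hZ : ∀ ρ : ℂ, Φ ρ = 0 → b < |ρ.re| → ρ.re ^ 2 ≤ x ^ 2 + b ^ 2 + (t - ρ.im) ^ 2) :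
    ‖Φ (((x - b : ℝ) : ℂ) + t * I)‖ ≤ ‖Φ (((x + b : ℝ) : ℂ) + t * I)‖ := by
  obtain ⟨R, hR1, hR2, hR3⟩ := h.app
  have hN : ∀ N, ‖(R N).eval (((x - b : ℝ) : ℂ) + t * I)‖ ≤ ‖(R N).eval (((x + b : ℝ) : ℂ) + t * I)‖ := by
    intro N
    have hsym : ∀ h : ℝ, ‖(R N).eval (-h + t * I : ℂ)‖ = ‖(R N).eval (h + t * I : ℂ)‖ := fun h => hR3 N h t
    have h4 : ‖(R N).eval (((x - b : ℝ) : ℂ) + t * I)‖ ^ 4 ≤ ‖(R N).eval (((x + b : ℝ) : ℂ) + t * I)‖ ^ 4 := by
      rw [norm_eval_pow4 hsym, norm_eval_pow4 hsym]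
      refine mul_le_mul_of_nonneg_left ?_ (by positivity)
      refine Multiset.prod_map_le_prod_map₀ _ _ (fun b _ => q_nonneg _ _ _) fun r hr => ?_
      refine q_shift hb hx ?_
      rcases hR1 N r (Polynomial.isRoot_of_mem_roots hr) with h6 | h6
      · rcases le_or_gt |r.re| b with h7 | h7
        · have h8 : r.re ^ 2 ≤ b ^ 2 := by
            rw [← sq_abs]
            exact pow_le_pow_left₀ (abs_nonneg _) h7 2
          nlinarith [sq_nonneg x, sq_nonneg (t - r.im)]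
        · exact hZ r h6 h7
      · rw [h6]
        nlinarith [sq_nonneg x, sq_nonneg b, sq_nonneg (t - r.im)]
    exact le_of_pow_le_pow_left₀ (by norm_num) (norm_nonneg _) h4
  have h3 : ‖Φ (((x - b : ℝ) : ℂ) + t * I) * Φ (((x - b : ℝ) : ℂ) + t * I)‖ ≤
      ‖Φ (((x + b : ℝ) : ℂ) + t * I) * Φ (((x + b : ℝ) : ℂ) + t * I)‖ :=
    le_of_tendsto_of_tendsto' (hR2 _).norm (hR2 _).norm hN
  rw [norm_mul, norm_mul] at h3
  exact abs_le_of_sq_le_sq' (by nlinarith) (norm_nonneg _) |>.2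

/-- The strict inequality. -/
theorem shift_lt {Φ : ℂ → ℂ} (h : Sy Φ) (hst : ∀ s : ℂ, Φ s = 0 → |s.re| ≤ 1 / 2) (hz : ∃ z, Φ z = 0)
    {b δ : ℝ} {z0 : ℂ} (hb : 0 < b) (hx : 0 < z0.re) (hδ : 0 < δ)
    (hZ : ∀ ρ : ℂ, Φ ρ = 0 → b < |ρ.re| → ρ.re ^ 2 + δ ≤ z0.re ^ 2 + b ^ 2 + (z0.im - ρ.im) ^ 2) :
    ‖Φ (z0 - b)‖ < ‖Φ (z0 + b)‖ := by
  obtain ⟨x, hx0⟩ : ∃ x : ℝ, x = z0.re := ⟨_, rfl⟩
  obtain ⟨t, ht0⟩ : ∃ t : ℝ, t = z0.im := ⟨_, rfl⟩
  rw [← hx0, ← ht0] at hZ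
  rw [← hx0] at hx
  obtain ⟨ε, hε⟩ : ∃ ε : ℝ, ε = min (min (x / 2) 1) (δ / (5 + 2 * x)) := ⟨_, rfl⟩
  have hε0 : 0 < ε := by rw [hε]; positivity
  have hε1 : ε ≤ x / 2 := by rw [hε]; exact (min_le_left _ _).trans (min_le_left _ _)
  have hε2 : ε ≤ 1 := by rw [hε]; exact (min_le_left _ _).trans (min_le_right _ _)
  have hε3 : ε * (5 + 2 * x) ≤ δ := by
    have : ε ≤ δ / (5 + 2 * x) := by rw [hε]; exact min_le_right _ _
    rwa [le_div_iff₀ (by linarith)] at this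
  have hle : ∀ z : ℂ, ‖z - z0‖ < ε → ‖Φ (z - b)‖ ≤ ‖Φ (z + b)‖ := by
    intro z hz
    have h1 : |z.re - x| ≤ ε := by
      have := (Complex.abs_re_le_norm (z - z0)).trans hz.le
      rwa [Complex.sub_re, ← hx0] at this
    have h2 : |z.im - t| ≤ ε := by
      have := (Complex.abs_im_le_norm (z - z0)).trans hz.le
      rwa [Complex.sub_im, ← ht0] at this
    obtain ⟨h1a, h1b⟩ := abs_le.1 h1
    obtain ⟨h2a, h2b⟩ := abs_le.1 h2
    have h3 := shift_le h (b := b) (x := z.re) (t := z.im) hb.le (by linarith) ?_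
    · have e1 : ((z.re - b : ℝ) : ℂ) + z.im * I = z - b := by
        apply Complex.ext <;> simp
      have e2 : ((z.re + b : ℝ) : ℂ) + z.im * I = z + b := by
        apply Complex.ext <;> simp
      rwa [e1, e2] at h3
    · intro ρ hρ hbρ
      have h4 := hZ ρ hρ hbρ
      have h5 := hst ρ hρ
      have h6 : ρ.re ^ 2 ≤ (1 / 2) ^ 2 := by
        rw [← sq_abs]
        exact pow_le_pow_left₀ (abs_nonneg _) h5 2
      rcases le_or_gt 2 |t - ρ.im| with h7 | h7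
      · have h8 : 1 ≤ |z.im - ρ.im| := by
          have h9 : |t - ρ.im| ≤ |z.im - ρ.im| + |z.im - t| := by
            have e : t - ρ.im = (z.im - ρ.im) - (z.im - t) := by ring
            rw [e]
            exact abs_sub _ _
          linarith
        have h9 : 1 ^ 2 ≤ (z.im - ρ.im) ^ 2 := by
          rw [← sq_abs (z.im - ρ.im)]
          exact pow_le_pow_left₀ (by norm_num) h8 2
        nlinarith [sq_nonneg z.re, sq_nonneg b]
      · obtain ⟨h7a, h7b⟩ := abs_lt.1 h7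
        have h8 : (t - ρ.im) ^ 2 - 5 * ε ≤ (z.im - ρ.im) ^ 2 := by nlinarith
        have h9 : x ^ 2 - 2 * x * ε ≤ z.re ^ 2 := by nlinarith
        nlinarith
  have hne : Φ (z0 + b) ≠ 0 := by
    intro h0
    have e1 : (z0 + b).re = x + b := by simp [hx0]
    have e2 : (z0 + b).im = t := by simp [ht0]
    have h1 := hZ _ h0 (by rw [e1, abs_of_pos (by linarith)]; linarith)
    rw [e1, e2, sub_self] at h1
    nlinarith [mul_pos hx hb]
  refine lt_of_le_of_ne (hle z0 (by simpa using hε0)) fun heq => ?_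
  obtain ⟨f, hf⟩ : ∃ f : ℂ → ℂ, f = fun z => Φ (z - b) / Φ (z + b) := ⟨_, rfl⟩
  have hc1 : Differentiable ℂ (fun z : ℂ => Φ (z - b)) := h.diff.comp (by fun_prop)
  have hc2 : Differentiable ℂ (fun z : ℂ => Φ (z + b)) := h.diff.comp (by fun_prop)
  have hev : ∀ᶠ z in 𝓝 z0, Φ (z + b) ≠ 0 := hc2.continuous.continuousAt.eventually_ne hne
  have hball : ∀ᶠ z in 𝓝 z0, ‖z - z0‖ < ε := by
    have := Metric.ball_mem_nhds z0 hε0
    filter_upwards [this] with z hz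
    rwa [Metric.mem_ball, dist_eq_norm] at hz
  have h1 : ∀ᶠ z in 𝓝 z0, DifferentiableAt ℂ f z := by
    filter_upwards [hev] with z hz
    rw [hf]
    exact (hc1 z).div (hc2 z) hz
  have hf0 : ‖f z0‖ = 1 := by
    rw [hf]
    simp only [norm_div, heq]
    exact div_self (norm_ne_zero_iff.2 hne)
  have h2 : IsLocalMax (norm ∘ f) z0 := by
    show ∀ᶠ z in 𝓝 z0, (norm ∘ f) z ≤ (norm ∘ f) z0
    filter_upwards [hev, hball] with z hz1 hz2
    rw [Function.comp_apply, Function.comp_apply, hf0, hf]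
    simp only [norm_div]
    rw [div_le_one (norm_pos_iff.2 hz1)]
    exact hle z hz2
  have h3 := Complex.eventually_eq_of_isLocalMax_norm h1 h2
  obtain ⟨c, hc⟩ : ∃ c : ℂ, c = f z0 := ⟨_, rfl⟩
  have h4 : (fun z : ℂ => Φ (z - b)) =ᶠ[𝓝 z0] fun z => c * Φ (z + b) := by
    filter_upwards [h3, hev] with z hz1 hz2
    rw [hc, ← hz1, hf]
    simp only
    rw [div_mul_cancel₀ _ hz2]
  have h5 : (fun z : ℂ => Φ (z - b)) = fun z => c * Φ (z + b) := by
    have a1 : AnalyticOnNhd ℂ (fun z : ℂ => Φ (z - b)) Set.univ := fun z _ => hc1.analyticAt z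
    have a2 : AnalyticOnNhd ℂ (fun z : ℂ => c * Φ (z + b)) Set.univ := fun z _ =>
      (hc2.const_mul c).analyticAt z
    exact AnalyticOnNhd.eq_of_eventuallyEq a1 a2 h4
  obtain ⟨ρ, hρ⟩ := hz
  have h6 : ∀ k : ℕ, Φ (ρ - 2 * b * k) = 0 := by
    intro k
    induction k with
    | zero => simpa using hρ
    | succ k ih =>
      have h7 := congrFun h5 (ρ - 2 * b * k - b)
      rw [show ρ - 2 * (b : ℂ) * k - b + b = ρ - 2 * b * k by ring, ih, mul_zero] at h7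
      rw [← h7]
      congr 1
      push_cast
      ring
  obtain ⟨k, hk⟩ := exists_nat_gt ((ρ.re + 1) / (2 * b))
  have h7 := hst _ (h6 k)
  have h8 : (ρ - 2 * (b : ℂ) * k).re = ρ.re - 2 * b * k := by simp
  rw [h8] at h7
  have h9 := (abs_le.1 h7).1
  rw [div_lt_iff₀ (by positivity)] at hk
  linarith

end Pool.Agent.T6.H10.SA
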