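import Pool.Agent.T6.H10.SA.Tot
import Pool.Agent.W605.SD.FinA
import Pool.Agent.Y693.GL.Gy
import Pool.Agent.Y671.GL.Cnt

set_option autoImplicit false
set_option maxHeartbeats 4000000

/-!
# Shifted averages: the proportion of the exceptional zeros
-/

namespace Pool.Agent.T6.H10.SA

open Complex Filter Topology Set MeasureTheory
open Pool.Agent.R838.TW (Sy)
open Pool.Agent.H24R2.DZ (NN)
open Pool.Agent.Y671.GL (CF FarL TopL GoodX AppX nu nu_eq nu_mono nu_le le_nu)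
open Pool.Agent.Y693.GL (GoodY GY)
open scoped ComplexConjugate

lemma goodR_of {κ : ℝ} {X : ℂ → ℂ} (hκ : 0 < κ) (h : GoodY κ X) : GoodR κ X := by
  intro η hη
  obtain ⟨c, C, a0, T0, hc, hC, ha0, hT0, H⟩ := h η hη
  refine ⟨c, C, a0, T0, hc, hC, ha0, hT0, fun T r hT ha hr hr1 hr2 => ?_⟩
  exact H T (κ * r * Real.log T) r hT ha hr hr1 hr2 (by rw [sub_self, abs_zero]; positivity)

/-- The zeros with imaginary part in `(T, 2T]`. -/
def AZ (Y : ℂ → ℂ) (T : ℝ) : Set ℂ := {s | Y s = 0 ∧ T < s.im ∧ s.im ≤ 2 * T}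

/-- The exceptional zeros. -/
def AE (Y : ℂ → ℂ) (κ ε T : ℝ) : Set ℂ := {s | Irr Y κ ε s ∧ T < s.im ∧ s.im ≤ 2 * T}

section
variable {X : ℂ → ℂ} {κ : ℝ}

lemma Fol_mono {Y : ℂ → ℂ} {ε ε' : ℝ} (h : ε' ≤ ε) {s : ℂ} (hf : Fol Y κ ε' s) : Fol Y κ ε s := by
  obtain ⟨g, h1, h2, h3⟩ := hf
  exact ⟨g, h1, h2.trans h, h3⟩

lemma AE_mono {Y : ℂ → ℂ} {ε ε' T : ℝ} (h : ε' ≤ ε) : AE Y κ ε T ⊆ AE Y κ ε' T := by
  rintro s ⟨⟨h1, h2⟩, h3⟩
  refine ⟨⟨h1, ?_⟩, h3⟩
  rcases h2 with h2 | h2 | h2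
  · exact Or.inl h2
  · exact Or.inr (Or.inl h2)
  · exact Or.inr (Or.inr fun h4 => h2 (Fol_mono h h4))

lemma AZ_fin (h0 : Sy X) (hst : ∀ s : ℂ, X s = 0 → |s.re| ≤ 1 / 2) (hz0 : ∃ z, X z = 0) {u : ℂ} (hu : ‖u‖ = 1)
    {h : ℝ} (hh : 0 < h) (T : ℝ) : (AZ (sh u h X) T).Finite := by
  have hne : sh u h X 1 ≠ 0 := by
    intro h1
    have := sh_strip h0 hst hz0 hu hh h1
    norm_num at this
  have hK : IsCompact (Icc (-(1 / 2 : ℝ)) (1 / 2) ×ℂ Icc T (2 * T)) := isCompact_Icc.reProdIm isCompact_Icc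
  refine (Pool.Agent.W605.SD.fin_zeros (sh_diff h0.diff) hne hK).subset ?_
  rintro s ⟨h1, h2, h3⟩
  refine ⟨?_, h1⟩
  rw [mem_reProdIm]
  have := abs_le.1 (sh_strip h0 hst hz0 hu hh h1)
  exact ⟨⟨this.1, this.2⟩, h2.le, h3⟩

/-- **The proportion of exceptional zeros.** -/
theorem main_prop {H Z : ℂ → ℂ} (hκ : 1 / 2 ≤ κ) (h0 : Sy X) (hst : ∀ s : ℂ, X s = 0 → |s.re| ≤ 1 / 2)
    (hz0 : ∃ z, X z = 0) (hCF : CF κ H X Z) (hgood : GoodR κ X) (htop : TopL κ X) {ε : ℝ} (hε : 0 < ε) :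
    ∃ c C : ℝ, 0 < c ∧ 0 < C ∧ ∀ (T h : ℝ) (u : ℂ), 2 ≤ T → 0 < h → h ≤ 1 / 2 → ‖u‖ = 1 →
      (nu (sh u h X) (AE (sh u h X) κ ε T) : ℝ) ≤
        C * Real.exp (-(c * (h * Real.log T))) * nu (sh u h X) (AZ (sh u h X) T) := by
  classical
  obtain ⟨c1, C1, K1, T1, hc1, hC1, hK1, hT1, H1⟩ := main_count hκ h0 hst hz0 hCF hgood htop
    (ε := min ε 1) (by positivity) (min_le_right _ _)
  obtain ⟨c2, K2, T2, hc2, hK2, hT2, H2⟩ := main_low hκ h0 hgood htop
  obtain ⟨B, hB⟩ : ∃ B : ℝ, B = max K1 K2 + Real.log (max T1 T2) := ⟨_, rfl⟩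
  have hT12 : 2 ≤ max T1 T2 := hT1.trans (le_max_left _ _)
  have hl12 : 0 ≤ Real.log (max T1 T2) := Real.log_nonneg (by linarith)
  have hK12 : 1 ≤ max K1 K2 := hK1.trans (le_max_left _ _)
  refine ⟨c1, C1 / c2 + Real.exp (c1 * B), hc1, by positivity, ?_⟩
  intro T h u hT hh hh2 hu
  have hfin := AZ_fin h0 hst hz0 hu hh T
  have hsub : AE (sh u h X) κ ε T ⊆ AZ (sh u h X) T := fun s hs => ⟨hs.1.1, hs.2⟩
  have hZ0 : (0 : ℝ) ≤ nu (sh u h X) (AZ (sh u h X) T) := Nat.cast_nonneg _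
  have hE := Real.exp_pos (-(c1 * (h * Real.log T)))
  have htriv : h * Real.log T ≤ B → (nu (sh u h X) (AE (sh u h X) κ ε T) : ℝ) ≤
        (C1 / c2 + Real.exp (c1 * B)) * Real.exp (-(c1 * (h * Real.log T))) * nu (sh u h X) (AZ (sh u h X) T) := by
    intro hle
    have h4 : 1 ≤ Real.exp (c1 * B) * Real.exp (-(c1 * (h * Real.log T))) := by
      rw [← Real.exp_add]
      apply Real.one_le_exp
      nlinarith
    calc (nu (sh u h X) (AE (sh u h X) κ ε T) : ℝ) ≤ nu (sh u h X) (AZ (sh u h X) T) := nu_mono hfin hsub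
      _ = 1 * nu (sh u h X) (AZ (sh u h X) T) := by ring
      _ ≤ (Real.exp (c1 * B) * Real.exp (-(c1 * (h * Real.log T)))) * nu (sh u h X) (AZ (sh u h X) T) := by
          gcongr
      _ ≤ _ := by
          have : 0 ≤ C1 / c2 * Real.exp (-(c1 * (h * Real.log T))) * nu (sh u h X) (AZ (sh u h X) T) := by positivity
          linarith
  rcases lt_or_ge T (max T1 T2) with hT3 | hT3
  · apply htriv
    have h5 : Real.log T ≤ Real.log (max T1 T2) := Real.log_le_log (by linarith) hT3.le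
    have h6 : 0 ≤ Real.log T := Real.log_nonneg (by linarith)
    rw [hB]
    nlinarith
  rcases lt_or_ge (h * Real.log T) (max K1 K2) with hK3 | hK3
  · apply htriv
    rw [hB]
    linarith
  have hE1 : (nu (sh u h X) (AE (sh u h X) κ ε T) : ℝ) ≤ C1 * T * Real.log T * Real.exp (-(c1 * (h * Real.log T))) := by
    refine (nu_mono (hfin.subset fun s hs => ⟨hs.1.1, hs.2⟩) (AE_mono (min_le_left ε 1))).trans ?_
    refine nu_le (hfin.subset fun s hs => ⟨hs.1.1, hs.2⟩) fun S hS =>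
      H1 T h u ((le_max_left _ _).trans hT3) hh hh2 ((le_max_left _ _).trans hK3) hu S fun s hs => ?_
    obtain ⟨k1, k2, k3⟩ := hS s hs
    exact ⟨k1, k2, k3⟩
  have hL1 : c2 * T * Real.log T ≤ nu (sh u h X) (AZ (sh u h X) T) := by
    have h1 := H2 T h u ((le_max_right _ _).trans hT3) hh hh2 ((le_max_right _ _).trans hK3) hu hfin.toFinset
      (fun s h1 h2 h3 => (Set.Finite.mem_toFinset hfin).2 ⟨h1, h2, h3⟩)
    refine h1.trans ?_
    rw [nu_eq hfin, Finset.card_eq_sum_ones]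
    push_cast
    refine Finset.sum_le_sum fun s hs => ?_
    obtain ⟨k1, -⟩ := (Set.Finite.mem_toFinset hfin).1 hs
    have han : AnalyticAt ℂ (sh u h X) s := (sh_diff h0.diff).analyticAt s
    have hne1 : analyticOrderAt (sh u h X) s ≠ 0 := by
      rw [Ne, han.analyticOrderAt_eq_zero]
      exact fun h => h k1
    have hne2 : analyticOrderAt (sh u h X) s ≠ ⊤ := by
      intro htop'
      rw [analyticOrderAt_eq_top] at htop'
      have hall : AnalyticOnNhd ℂ (sh u h X) univ := fun z _ => (sh_diff h0.diff).analyticAt z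
      have h2 := hall.eqOn_zero_of_preconnected_of_eventuallyEq_zero isPreconnected_univ (mem_univ s) htop'
      have h3 := h2 (mem_univ (1 : ℂ))
      have h4 := sh_strip h0 hst hz0 hu hh h3
      norm_num at h4
    have h5 : analyticOrderNatAt (sh u h X) s ≠ 0 := by
      unfold analyticOrderNatAt
      rw [Ne, ENat.toNat_eq_zero]
      push Not
      exact ⟨hne1, hne2⟩
    exact_mod_cast Nat.one_le_iff_ne_zero.2 h5
  have h9 : C1 * T * Real.log T * Real.exp (-(c1 * (h * Real.log T))) ≤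
      C1 / c2 * Real.exp (-(c1 * (h * Real.log T))) * nu (sh u h X) (AZ (sh u h X) T) := by
    calc C1 * T * Real.log T * Real.exp (-(c1 * (h * Real.log T))) =
        C1 / c2 * Real.exp (-(c1 * (h * Real.log T))) * (c2 * T * Real.log T) := by
          field_simp
      _ ≤ _ := by gcongr
  have h10 : 0 ≤ Real.exp (c1 * B) * Real.exp (-(c1 * (h * Real.log T))) * nu (sh u h X) (AZ (sh u h X) T) := by
    positivity
  linarith

/-- **Exactness.** -/
theorem exact_iff (h0 : Sy X) (hst : ∀ s : ℂ, X s = 0 → |s.re| ≤ 1 / 2) (hz0 : ∃ z, X z = 0) {h : ℝ} (hh : 0 < h) :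
    (∀ u : ℂ, ‖u‖ = 1 → ∀ z, sh u h X z = 0 → z.re = 0) ↔ ∀ ρ, X ρ = 0 → |ρ.re| ≤ h := by
  constructor
  · intro hall ρ hρ
    by_contra hcon
    push Not at hcon
    -- a zero in the right half plane
    obtain ⟨σ, hσ, hσh⟩ : ∃ σ : ℂ, X σ = 0 ∧ h < σ.re := by
      rcases lt_abs.1 hcon with h1 | h1
      · exact ⟨ρ, hρ, h1⟩
      · exact ⟨-(conj ρ), by rw [h0.symm, hρ, map_zero], by simpa using h1⟩
    obtain ⟨g, hg⟩ : ∃ g : ℝ → ℝ, g = fun x : ℝ => ‖X ((x : ℂ) + σ.im * I + h)‖ - ‖X ((x : ℂ) + σ.im * I - h)‖ := ⟨_, rfl⟩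
    have hXc := h0.diff.continuous
    have hgc : Continuous g := by
      rw [hg]
      fun_prop
    have hg1 : g (σ.re - h) ≤ 0 := by
      rw [hg]
      have e : ((σ.re - h : ℝ) : ℂ) + σ.im * I + h = σ := by
        apply Complex.ext <;> simp
      simp only
      rw [e, hσ, norm_zero, zero_sub, neg_nonpos]
      exact norm_nonneg _
    have hg2 : 0 ≤ g (σ.re + 1) := by
      rw [hg]
      simp only
      have := shift_lt h0 hst hz0 (b := h) (δ := 1 / 4) (z0 := ((σ.re + 1 : ℝ) : ℂ) + σ.im * I) hh (by simp; linarith)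
        (by norm_num) (fun ρ' hρ' _ => by
          have h2 : ρ'.re ^ 2 ≤ (1 / 2) ^ 2 := by
            rw [← sq_abs]
            exact pow_le_pow_left₀ (abs_nonneg _) (hst ρ' hρ') 2
          have e1 : (((σ.re + 1 : ℝ) : ℂ) + σ.im * I).re = σ.re + 1 := by simp
          rw [e1]
          nlinarith [sq_nonneg ((((σ.re + 1 : ℝ) : ℂ) + σ.im * I).im - ρ'.im), sq_nonneg h])
      linarith
    obtain ⟨x, hx, hx0⟩ : ∃ x ∈ Icc (σ.re - h) (σ.re + 1), g x = 0 := by
      have := intermediate_value_Icc (by linarith : σ.re - h ≤ σ.re + 1) hgc.continuousOn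
      exact this ⟨hg1, hg2⟩
    obtain ⟨z, hz⟩ : ∃ z : ℂ, z = (x : ℂ) + σ.im * I := ⟨_, rfl⟩
    have hn : ‖X (z + h)‖ = ‖X (z - h)‖ := by
      rw [hg] at hx0
      simp only at hx0
      rw [hz]
      linarith
    have hzre : z.re = x := by rw [hz]; simp
    have hxpos : 0 < x := by linarith [hx.1]
    -- choose the phase
    by_cases hX0 : X (z + h) = 0
    · have hX1 : X (z - h) = 0 := by
        rw [hX0, norm_zero] at hn
        exact norm_eq_zero.1 hn.symm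
      have := hall 1 (by simp) z (by unfold sh; rw [hX0, hX1]; simp)
      linarith
    · have hn0 : ‖X (z + h)‖ ≠ 0 := norm_ne_zero_iff.2 hX0
      -- u^2 = - X (z-h)/X(z+h)
      obtain ⟨q, hq⟩ : ∃ q : ℂ, q = -(X (z - h) / X (z + h)) := ⟨_, rfl⟩
      have hq1 : ‖q‖ = 1 := by
        rw [hq, norm_neg, norm_div, ← hn, div_self hn0]
      obtain ⟨u, hu⟩ : ∃ u : ℂ, u ^ 2 = q := ⟨q ^ ((1 : ℂ) / 2), by
        rw [← Complex.cpow_nat_mul]
        norm_num⟩
      have hu1 : ‖u‖ = 1 := by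
        have h1 : ‖u‖ ^ 2 = 1 := by rw [← norm_pow, hu, hq1]
        have h2 := norm_nonneg u
        nlinarith
      have hcu : conj u * u = 1 := by
        rw [mul_comm, Complex.mul_conj, Complex.normSq_eq_norm_sq, hu1]
        norm_num
      have h3 : sh u h X z = 0 := by
        unfold sh
        have h4 : u * X (z + h) + conj u * X (z - h) = conj u * (u ^ 2 * X (z + h) + X (z - h)) := by
          linear_combination -(u * X (z + h)) * hcu
        rw [h4, hu, hq]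
        field_simp
        ring
      have := hall u hu1 z h3
      linarith
  · intro hρ u hu z hz
    have key : ∀ w : ℂ, sh u h X w = 0 → w.re ≤ 0 := by
      intro w hw
      by_contra hpos
      push Not at hpos
      exact sh_ne hu (shift_lt h0 hst hz0 (δ := 1) hh hpos (by norm_num) fun ρ hρ0 hρh =>
        absurd (hρ ρ hρ0) (not_le.2 hρh)) hw
    have h3 := key z hz
    have h4 := key (-(conj z)) (refl_zero h0.symm hz)
    simp at h4
    linarith

end

end Pool.Agent.T6.H10.SA
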