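import Pool.Agent.R838.CR.Loc2
import Pool.Agent.R838.CR.Real1

set_option autoImplicit false

/-!
# Shifted averages of symmetric entire functions: local theory

`sh u h X z = u X(z + h) + conj u X(z - h)`. If `X` is real on the imaginary axis up to the reflection
(`X (-conj z) = conj (X z)`), `sh u h X` is real on the axis: it is twice the real part of `u X(z + h)`.
-/

namespace Pool.Agent.T6.H10.SA

open Complex Filter Topology Set
open Pool.Agent.W366.SDNL (seg)
open Pool.Agent.R838.CR (rot first_zero)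
open scoped ComplexConjugate

/-- The shifted average. -/
noncomputable def sh (u : ℂ) (h : ℝ) (X : ℂ → ℂ) (z : ℂ) : ℂ := u * X (z + h) + conj u * X (z - h)

/-- The half disc. -/
def HS (ε0 R t0 : ℝ) : Set ℂ := {z | ε0 ≤ z.re ∧ ‖z - I * t0‖ ≤ R}

lemma HS_convex (ε0 R t0 : ℝ) : Convex ℝ (HS ε0 R t0) := by
  have h1 : Convex ℝ {z : ℂ | ε0 ≤ z.re} := by
    have := (convex_Ici ε0).linear_preimage Complex.reLm
    exact this
  have h2 : Convex ℝ (Metric.closedBall (I * (t0 : ℂ)) R) := convex_closedBall _ _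
  have h3 : HS ε0 R t0 = {z : ℂ | ε0 ≤ z.re} ∩ Metric.closedBall (I * (t0 : ℂ)) R := by
    ext z
    simp only [HS, Set.mem_ofPred_eq, Set.mem_inter_iff, Metric.mem_closedBall, dist_eq_norm]
  rw [h3]
  exact h1.inter h2

/-- No zeros and logarithmic derivative close to `A` in a half disc. -/
def FarS (X : ℂ → ℂ) (A η ε0 R t0 : ℝ) : Prop := ∀ z ∈ HS ε0 R t0, X z ≠ 0 ∧ ‖logDeriv X z - (A : ℂ)‖ ≤ η * A

section
variable {X : ℂ → ℂ} {u : ℂ} {h A η ε0 R t0 : ℝ}

lemma sh_symm (hs : ∀ z : ℂ, X (-(conj z)) = conj (X z)) (z : ℂ) :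
    sh u h X (-(conj z)) = conj (sh u h X z) := by
  unfold sh
  have e1 : -(conj z) + (h : ℂ) = -(conj (z - h)) := by
    rw [map_sub, Complex.conj_ofReal]; ring
  have e2 : -(conj z) - (h : ℂ) = -(conj (z + h)) := by
    rw [map_add, Complex.conj_ofReal]; ring
  rw [e1, e2, hs, hs, map_add, map_mul, map_mul, Complex.conj_conj]
  ring

lemma sh_diff (hd : Differentiable ℂ X) : Differentiable ℂ (sh u h X) := by
  unfold sh
  have h1 : Differentiable ℂ (fun z : ℂ => X (z + h)) := hd.comp (by fun_prop)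
  have h2 : Differentiable ℂ (fun z : ℂ => X (z - h)) := hd.comp (by fun_prop)
  exact (h1.const_mul u).add (h2.const_mul _)

/-- no zero where the moduli differ -/
lemma sh_ne (hu : ‖u‖ = 1) {z : ℂ} (hlt : ‖X (z - h)‖ < ‖X (z + h)‖) : sh u h X z ≠ 0 := by
  intro h0
  unfold sh at h0
  have h1 : u * X (z + h) = -(conj u * X (z - h)) := by linear_combination h0
  have h2 := congrArg norm h1
  rw [norm_neg, norm_mul, norm_mul, Complex.norm_conj, hu, one_mul, one_mul] at h2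
  linarith

/-- comparison of two points at the same height -/
lemma cmp (hd : Differentiable ℂ X) (hF : FarS X A η ε0 R t0) {z : ℂ} {t : ℝ} (ht : 0 ≤ t)
    (h1 : z ∈ HS ε0 R t0) (h2 : z + t ∈ HS ε0 R t0) :
    ‖X z‖ ≤ ‖X (z + t)‖ * Real.exp (-(A * (1 - η) * t)) := by
  have := seg hd (HS_convex ε0 R t0) hF h2 h1
  refine this.trans (le_of_eq ?_)
  congr 2
  have e1 : z.re - (z + t).re = -t := by simp
  have e2 : ‖z - (z + t)‖ = t := by
    rw [show z - (z + (t : ℂ)) = ((-t : ℝ) : ℂ) by push_cast; ring, Complex.norm_real, Real.norm_eq_abs, abs_neg,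
      abs_of_nonneg ht]
  rw [e1, e2]
  ring

lemma cmp_lt (hd : Differentiable ℂ X) (hF : FarS X A η ε0 R t0) (hA : 0 < A) (hη : η < 1) {z : ℂ} {t : ℝ}
    (ht : 0 < t) (h1 : z ∈ HS ε0 R t0) (h2 : z + t ∈ HS ε0 R t0) : ‖X z‖ < ‖X (z + t)‖ := by
  have h3 := cmp hd hF ht.le h1 h2
  have h4 : 0 < ‖X (z + t)‖ := norm_pos_iff.2 (hF _ h2).1
  have h5 : Real.exp (-(A * (1 - η) * t)) < 1 := by
    rw [Real.exp_lt_one_iff]
    have : 0 < A * (1 - η) * t := mul_pos (mul_pos hA (by linarith)) ht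
    linarith
  calc ‖X z‖ ≤ _ := h3
    _ < ‖X (z + t)‖ * 1 := mul_lt_mul_of_pos_left h5 h4
    _ = _ := mul_one _

/-- both points to the right -/
lemma lt_right (hd : Differentiable ℂ X) (hF : FarS X A η ε0 R t0) (hA : 0 < A) (hη : η < 1) (hh : 0 < h) {z : ℂ}
    (h1 : h + ε0 ≤ z.re) (h2 : z.re + h + |z.im - t0| ≤ R) (hε : 0 ≤ ε0) : ‖X (z - h)‖ < ‖X (z + h)‖ := by
  have hn : ∀ w : ℂ, ‖w‖ ≤ |w.re| + |w.im| := Complex.norm_le_abs_re_add_abs_im
  have h3 : z - h ∈ HS ε0 R t0 := by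
    refine ⟨by simp; linarith, (hn _).trans ?_⟩
    have e1 : (z - h - I * t0).re = z.re - h := by simp
    have e2 : (z - h - I * t0).im = z.im - t0 := by simp
    rw [e1, e2, abs_of_nonneg (by linarith)]
    linarith
  have h4 : z + h ∈ HS ε0 R t0 := by
    refine ⟨by simp; linarith, (hn _).trans ?_⟩
    have e1 : (z + h - I * t0).re = z.re + h := by simp
    have e2 : (z + h - I * t0).im = z.im - t0 := by simp
    rw [e1, e2, abs_of_nonneg (by linarith)]
    linarith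
  have h5 : z - h + ((2 * h : ℝ) : ℂ) = z + h := by push_cast; ring
  have := cmp_lt hd hF hA hη (t := 2 * h) (by linarith) h3 (by rw [h5]; exact h4)
  rwa [h5] at this

/-- reflection of the left point -/
lemma lt_refl (hd : Differentiable ℂ X) (hs : ∀ z : ℂ, X (-(conj z)) = conj (X z)) (hF : FarS X A η ε0 R t0)
    (hA : 0 < A) (hη : η < 1) {z : ℂ} (hz : 0 < z.re)
    (h1 : z.re ≤ h - ε0) (h2 : z.re + h + |z.im - t0| ≤ R) (hε : 0 ≤ ε0) : ‖X (z - h)‖ < ‖X (z + h)‖ := by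
  have hn : ∀ w : ℂ, ‖w‖ ≤ |w.re| + |w.im| := Complex.norm_le_abs_re_add_abs_im
  have e0 : z - h = -(conj ((h : ℂ) - conj z)) := by
    rw [map_sub, Complex.conj_ofReal, Complex.conj_conj]; ring
  rw [e0, hs, Complex.norm_conj]
  have h3 : (h : ℂ) - conj z ∈ HS ε0 R t0 := by
    refine ⟨by simp; linarith, (hn _).trans ?_⟩
    have e1 : ((h : ℂ) - conj z - I * t0).re = h - z.re := by simp
    have e2 : ((h : ℂ) - conj z - I * t0).im = z.im - t0 := by simp
    rw [e1, e2, abs_of_nonneg (by linarith)]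
    linarith
  have h4 : z + h ∈ HS ε0 R t0 := by
    refine ⟨by simp; linarith, (hn _).trans ?_⟩
    have e1 : (z + h - I * t0).re = z.re + h := by simp
    have e2 : (z + h - I * t0).im = z.im - t0 := by simp
    rw [e1, e2, abs_of_nonneg (by linarith)]
    linarith
  have h5 : (h : ℂ) - conj z + ((2 * z.re : ℝ) : ℂ) = z + h := by
    apply Complex.ext
    · simp; ring
    · simp
  have := cmp_lt hd hF hA hη (t := 2 * z.re) (by linarith) h3 (by rw [h5]; exact h4)
  rwa [h5] at this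

/-- the middle part, where `X` is small near the axis -/
lemma lt_mid (hd : Differentiable ℂ X) {r : ℝ} (hr : 0 < r) (hF : FarS X A η (r / 1000) (20 * r) t0)
    (hN : ∀ z : ℂ, |z.re| ≤ r / 1000 → ‖z - I * t0‖ ≤ 20 * r →
      ‖X z‖ ≤ ‖X (I * t0 + r)‖ * Real.exp (-(9 / 10 * (A * r))))
    (hA : 0 < A) (hη : η ≤ 1 / 10) (hη0 : 0 ≤ η) {z : ℂ}
    (h1 : |z.re - r| ≤ r / 1000) (h2 : |z.im - t0| ≤ r) : ‖X (z - r)‖ < ‖X (z + r)‖ := by
  have hn : ∀ w : ℂ, ‖w‖ ≤ |w.re| + |w.im| := Complex.norm_le_abs_re_add_abs_im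
  obtain ⟨h1a, h1b⟩ := abs_le.1 h1
  have h3 : ‖X (z - r)‖ ≤ ‖X (I * t0 + r)‖ * Real.exp (-(9 / 10 * (A * r))) := by
    refine hN _ (by simpa using h1) ((hn _).trans ?_)
    have e1 : (z - r - I * t0).re = z.re - r := by simp
    have e2 : (z - r - I * t0).im = z.im - t0 := by simp
    rw [e1, e2]
    linarith
  have h4 : I * t0 + r ∈ HS (r / 1000) (20 * r) t0 := by
    refine ⟨by simp; linarith, ?_⟩
    rw [add_sub_cancel_left, Complex.norm_real, Real.norm_eq_abs, abs_of_pos hr]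
    linarith
  have h5 : z + r ∈ HS (r / 1000) (20 * r) t0 := by
    refine ⟨by simp; linarith, (hn _).trans ?_⟩
    have e1 : (z + r - I * t0).re = z.re + r := by simp
    have e2 : (z + r - I * t0).im = z.im - t0 := by simp
    rw [e1, e2, abs_of_nonneg (by linarith)]
    linarith
  have h6 := seg hd (HS_convex _ _ _) hF h5 h4
  have h7 : (I * t0 + r : ℂ).re - (z + r).re = -z.re := by simp
  have h8 : ‖I * t0 + r - (z + r)‖ ≤ z.re + r := by
    refine (hn _).trans ?_
    have e1 : (I * t0 + r - (z + r) : ℂ).re = -z.re := by simp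
    have e2 : (I * t0 + r - (z + r) : ℂ).im = t0 - z.im := by simp
    rw [e1, e2, abs_neg, abs_of_nonneg (by linarith), abs_sub_comm]
    linarith
  rw [h7] at h6
  have h9 : 0 < ‖X (z + r)‖ := norm_pos_iff.2 (hF _ h5).1
  have h10 : A * -z.re + η * A * ‖I * t0 + r - (z + r)‖ ≤ 0 := by
    have h11 : η * A * ‖I * t0 + r - (z + r)‖ ≤ 1 / 10 * A * (z.re + r) := by
      apply mul_le_mul (mul_le_mul_of_nonneg_right hη hA.le) h8 (norm_nonneg _) (by positivity)
    nlinarith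
  have h12 : ‖X (I * t0 + r)‖ ≤ ‖X (z + r)‖ := by
    refine h6.trans ?_
    calc _ ≤ ‖X (z + r)‖ * 1 := mul_le_mul_of_nonneg_left (Real.exp_le_one_iff.2 h10) h9.le
      _ = _ := mul_one _
  have h13 : Real.exp (-(9 / 10 * (A * r))) < 1 := by
    rw [Real.exp_lt_one_iff]
    have : 0 < A * r := mul_pos hA hr
    linarith
  calc ‖X (z - r)‖ ≤ _ := h3
    _ ≤ ‖X (z + r)‖ * Real.exp (-(9 / 10 * (A * r))) := mul_le_mul_of_nonneg_right h12 (Real.exp_pos _).le
    _ < ‖X (z + r)‖ * 1 := mul_lt_mul_of_pos_left h13 h9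
    _ = _ := mul_one _

/-! ### on the axis -/

lemma sh_axis (hs : ∀ z : ℂ, X (-(conj z)) = conj (X z)) (y : ℝ) :
    sh u h X (I * y) = ((2 * (u * X (h + I * y)).re : ℝ) : ℂ) := by
  unfold sh
  have e1 : I * (y : ℂ) - (h : ℂ) = -(conj ((h : ℂ) + I * y)) := by
    rw [map_add, Complex.conj_ofReal, map_mul, Complex.conj_I, Complex.conj_ofReal]; ring
  have e2 : I * (y : ℂ) + (h : ℂ) = (h : ℂ) + I * y := add_comm _ _
  rw [e1, e2, hs, ← map_mul, Complex.add_conj]

lemma has_axis (hd : Differentiable ℂ X) (y : ℝ) :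
    HasDerivAt (fun y : ℝ => (u * X (h + I * y)).re) ((u * (deriv X (h + I * y) * I)).re) y := by
  have h1 : HasDerivAt (fun y : ℝ => (h : ℂ) + I * (y : ℂ)) I y := by
    have := ((Complex.ofRealCLM.hasDerivAt (x := y)).const_mul I).const_add (h : ℂ)
    simpa using this
  have h2 : HasDerivAt (fun y : ℝ => X ((h : ℂ) + I * (y : ℂ))) (deriv X (h + I * y) * I) y :=
    HasDerivAt.comp y (hd _).hasDerivAt h1
  have h3 := h2.const_mul u
  have h4 := (Complex.reCLM.hasFDerivAt (x := u * X ((h : ℂ) + I * (y : ℂ)))).comp_hasDerivAt y h3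
  exact h4

lemma sh_axis_deriv (hd : Differentiable ℂ X) (hs : ∀ z : ℂ, X (-(conj z)) = conj (X z)) (y : ℝ) :
    deriv (sh u h X) (I * y) * I = ((2 * (u * (deriv X (h + I * y) * I)).re : ℝ) : ℂ) := by
  have h1 : HasDerivAt (fun y : ℝ => I * (y : ℂ)) I y := by
    have := (Complex.ofRealCLM.hasDerivAt (x := y)).const_mul I
    simpa using this
  have h2 : HasDerivAt (fun y : ℝ => sh u h X (I * (y : ℂ))) (deriv (sh u h X) (I * y) * I) y :=
    HasDerivAt.comp y (sh_diff hd _).hasDerivAt h1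
  have h3 : HasDerivAt (fun y : ℝ => sh u h X (I * (y : ℂ)))
      (((2 * (u * (deriv X (h + I * y) * I)).re : ℝ) : ℂ)) y := by
    have h4 := ((has_axis (u := u) (h := h) hd y).const_mul 2).ofReal_comp
    have e : (fun y : ℝ => sh u h X (I * (y : ℂ))) = fun y : ℝ => ((2 * (u * X (h + I * y)).re : ℝ) : ℂ) := by
      funext y
      exact sh_axis hs y
    rw [e]
    exact h4
  exact h2.unique h3

end

end Pool.Agent.T6.H10.SA
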