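import Pool.Agent.T6.H10.SA.Mul

set_option autoImplicit false
set_option maxHeartbeats 4000000

/-!
# Shifted averages: the number of the exceptional zeros in dyadic windows
-/

namespace Pool.Agent.T6.H10.SA

open Complex Filter Topology Set MeasureTheory
open Pool.Agent.R838.TW (Sy)
open Pool.Agent.H24R2.DZ (NN)
open Pool.Agent.Y671.GL (CF FarL TopL GoodX)
open scoped ComplexConjugate

section
variable {X : ℂ → ℂ} {κ : ℝ}

/-- constants -/
lemma top_conv (hκ : 0 < κ) (htop : TopL κ X) {ε0 η : ℝ} (hε0 : 0 < ε0) (hη : 0 < η) : ∃ c C T0 : ℝ, 0 < c ∧ 0 < C ∧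
    2 ≤ T0 ∧ ∀ T : ℝ, T0 ≤ T → volume {t : ℝ | T / 2 ≤ t ∧ t ≤ 3 * T ∧ ¬ FarS X (κ * Real.log T) η ε0 20 t} ≤
      ENNReal.ofReal (C * T ^ (1 - c)) := by
  obtain ⟨c, C, T0, hc, hC, hT0, H⟩ := htop 20 ε0 (η * κ / 4) (by norm_num) hε0 (by positivity)
  refine ⟨c, C, max T0 (Real.exp (4 / η + 4)), hc, hC, hT0.trans (le_max_left _ _), ?_⟩
  intro T hT
  have hT1 : T0 ≤ T := (le_max_left _ _).trans hT
  have hT2 : Real.exp (4 / η + 4) ≤ T := (le_max_right _ _).trans hT
  have hTp : 0 < T := by linarith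
  have hL : 4 / η + 4 ≤ Real.log T := by rw [Real.le_log_iff_exp_le hTp]; exact hT2
  refine (measure_mono ?_).trans (H T hT1)
  rintro t ⟨h1, h2, h3⟩
  refine ⟨h1, h2, fun h4 => h3 ?_⟩
  refine farS_of_FarL hκ (by linarith) h1 h2 (by positivity) ?_ h4
  have h5 : 4 ≤ η * (Real.log T - 4) := by
    have : 4 / η ≤ Real.log T - 4 := by linarith
    rw [div_le_iff₀ hη] at this
    linarith
  nlinarith [mul_pos hη hκ]

/-- **The number of exceptional zeros**, main range. -/
theorem main_count {H Z : ℂ → ℂ} (hκ : 1 / 2 ≤ κ) (h0 : Sy X) (hst : ∀ s : ℂ, X s = 0 → |s.re| ≤ 1 / 2)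
    (hz0 : ∃ z, X z = 0) (hCF : CF κ H X Z) (hgood : GoodR κ X) (htop : TopL κ X) {ε : ℝ} (hε : 0 < ε) (hε1 : ε ≤ 1) :
    ∃ c C K T0 : ℝ, 0 < c ∧ 0 < C ∧ 1 ≤ K ∧ 2 ≤ T0 ∧ ∀ (T h : ℝ) (u : ℂ), T0 ≤ T → 0 < h → h ≤ 1 / 2 →
      K ≤ h * Real.log T → ‖u‖ = 1 → ∀ S : Finset ℂ, (∀ s ∈ S, Irr (sh u h X) κ ε s ∧ T < s.im ∧ s.im ≤ 2 * T) →
      ∑ s ∈ S, (analyticOrderNatAt (sh u h X) s : ℝ) ≤ C * T * Real.log T * Real.exp (-(c * (h * Real.log T))) := by
  classical
  have hκ0 : 0 < κ := by linarith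
  obtain ⟨η, hη⟩ : ∃ η : ℝ, η = ε / 2000 := ⟨_, rfl⟩
  have hη0 : 0 < η := by rw [hη]; positivity
  have hη1 : η ≤ 1 / 2000 := by rw [hη]; linarith
  have hηε : 5 * η ≤ ε / 16 := by rw [hη]; linarith
  obtain ⟨κ', hκ'⟩ : ∃ κ' : ℝ, κ' = max 1 κ := ⟨_, rfl⟩
  have hκ'1 : 1 ≤ κ' := by rw [hκ']; exact le_max_left _ _
  have hκκ' : κ ≤ κ' := by rw [hκ']; exact le_max_right _ _
  have hκ'0 : 0 < κ' := by linarith
  obtain ⟨ε0, hε0d⟩ : ∃ ε0 : ℝ, ε0 = 1 / (1000 * κ') := ⟨_, rfl⟩
  have hε0 : 0 < ε0 := by rw [hε0d]; positivity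
  have hε0κ : ε0 * κ' = 1 / 1000 := by rw [hε0d]; field_simp
  obtain ⟨c1, C1, a1, T1, hc1, hC1, ha1, hT1, Hg⟩ := hgood η hη0
  obtain ⟨c2, C2, T2, hc2, hC2, hT2, Ht⟩ := top_conv hκ0 htop hε0 hη0
  obtain ⟨C3, T3, hC3, hT3, Hu⟩ := count_unit hκ hCF
  have hl95 : 0 < Real.log (9 / 5) := Real.log_pos (by norm_num)
  obtain ⟨C4, hC4⟩ : ∃ C4 : ℝ, C4 = 72 * κ / Real.log (9 / 5) + 400 * κ' * C3 := ⟨_, rfl⟩
  have hC40 : 0 < C4 := by rw [hC4]; positivity
  obtain ⟨K, hK⟩ : ∃ K : ℝ, K = (400 + a1) / κ + 1 := ⟨_, rfl⟩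
  have hK1 : 1 ≤ K := by
    rw [hK]
    have : 0 ≤ (400 + a1) / κ := by positivity
    linarith
  have hKκ : 400 + a1 ≤ κ * K := by
    rw [hK, mul_add, mul_div_cancel₀ _ hκ0.ne']
    linarith
  obtain ⟨x0, hx0⟩ : ∃ x0 : ℝ, x0 = c1 * κ * K := ⟨_, rfl⟩
  have hx00 : 0 < x0 := by rw [hx0]; positivity
  obtain ⟨C5, hC5⟩ : ∃ C5 : ℝ, C5 = 1 / (1 - Real.exp (-x0)) := ⟨_, rfl⟩
  have hC50 : 0 < C5 := by
    rw [hC5]
    have : Real.exp (-x0) < 1 := by rw [Real.exp_lt_one_iff]; linarith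
    have : 0 < 1 - Real.exp (-x0) := by linarith
    positivity
  refine ⟨min (c1 * κ) (2 * c2), 50 * C1 * C4 * C5 + 100 * C2 * C3, K, max (max T1 T2) (max T3 (Real.exp (6 / ε))) + 2,
    by positivity, by positivity, hK1, ?_, ?_⟩
  · have : 2 ≤ max (max T1 T2) (max T3 (Real.exp (6 / ε))) := hT1.trans ((le_max_left _ _).trans (le_max_left _ _))
    linarith
  intro T h u hT hh hh2 hKh hu S hS
  have hTa : T1 ≤ T := by
    have := (le_max_left T1 T2).trans (le_max_left _ (max T3 (Real.exp (6 / ε))))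
    linarith
  have hTb : T2 ≤ T := by
    have := (le_max_right T1 T2).trans (le_max_left _ (max T3 (Real.exp (6 / ε))))
    linarith
  have hTc : T3 ≤ T := by
    have := (le_max_left T3 (Real.exp (6 / ε))).trans (le_max_right (max T1 T2) _)
    linarith
  have hTd : Real.exp (6 / ε) ≤ T := by
    have := (le_max_right T3 (Real.exp (6 / ε))).trans (le_max_right (max T1 T2) _)
    linarith
  have hT2' : 2 ≤ T := by linarith
  have hTp : 0 < T := by linarith
  obtain ⟨L, hL⟩ : ∃ L : ℝ, L = Real.log T := ⟨_, rfl⟩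
  rw [← hL] at hKh ⊢
  have hL0 : 0 < L := by rw [hL]; exact Real.log_pos (by linarith)
  have hTε : 6 / ε ≤ Real.log T := by rw [Real.le_log_iff_exp_le hTp]; exact hTd
  have hLK : K ≤ L := by nlinarith
  have hκhL : 400 + a1 ≤ κ * (h * L) := hKκ.trans (mul_le_mul_of_nonneg_left hKh hκ0.le)
  have hstr : ∀ z, sh u h X z = 0 → |z.re| ≤ 1 / 2 := fun z hz => sh_strip h0 hst hz0 hu hh hz
  have hw0 : ∀ s ∈ S, (0 : ℝ) ≤ (analyticOrderNatAt (sh u h X) s : ℝ) := fun s _ => Nat.cast_nonneg _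
  -- unit windows
  have hunit : ∀ (y : ℝ), T ≤ y → y ≤ 2 * T → ∀ S' : Finset ℂ, (∀ s ∈ S', |s.re| ≤ 1 / 2 ∧ |s.im - y| ≤ 1) →
      ∑ s ∈ S', (analyticOrderNatAt (sh u h X) s : ℝ) ≤ 2 * C3 * L := by
    intro y hy1 hy2 S' hS'
    have hly : L ≤ Real.log y := by rw [hL]; exact Real.log_le_log hTp hy1
    have h1 := Hu y h u (by linarith) hh hh2 (by nlinarith) hu S' hS'
    refine h1.trans ?_
    have h2 : Real.log y ≤ 2 * L := by
      have h3 := Real.log_le_log (by linarith) hy2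
      rw [Real.log_mul (by norm_num) hTp.ne'] at h3
      have h4 : Real.log 2 ≤ Real.log T := Real.log_le_log (by norm_num) hT2'
      rw [← hL] at h3 h4
      linarith
    nlinarith
  -- the top part
  have htopS : ∀ S' : Finset ℂ, S' ⊆ S → (∀ s ∈ S', ¬ Gt (κ * L) η ε0 X s.im) →
      ∑ s ∈ S', (analyticOrderNatAt (sh u h X) s : ℝ) ≤
        100 * C2 * C3 * (T * L * Real.exp (-(2 * c2 * (h * L)))) := by
    intro S' hS' hbad
    have hcov := Pool.Agent.W337.SD.cov S' (fun s => (analyticOrderNatAt (sh u h X) s : ℝ))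
      {t : ℝ | T / 2 ≤ t ∧ t ≤ 3 * T ∧ ¬ FarS X (κ * Real.log T) η ε0 20 t} (1 / 100) (C2 * T ^ (1 - c2)) (2 * C3 * L)
      (by norm_num) (by positivity) (by positivity) (fun s hs => hw0 s (hS' hs)) ?_ (Ht T hTb) ?_
    · refine hcov.trans ?_
      have h1 : T ^ (1 - c2) ≤ T * Real.exp (-(2 * c2 * (h * L))) := by
        rw [Real.rpow_def_of_pos hTp, ← hL]
        have h2 : T = Real.exp L := by rw [hL, Real.exp_log hTp]
        conv_rhs => rw [h2]
        rw [← Real.exp_add]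
        apply Real.exp_le_exp.2
        nlinarith [mul_pos hc2 hL0]
      calc 2 * C3 * L * (C2 * T ^ (1 - c2) / (2 * (1 / 100))) = 100 * C2 * C3 * (L * T ^ (1 - c2)) := by ring
        _ ≤ 100 * C2 * C3 * (L * (T * Real.exp (-(2 * c2 * (h * L))))) := by gcongr
        _ = _ := by ring
    · intro s hs t ht
      obtain ⟨-, h1, h2⟩ := hS s (hS' hs)
      rw [mem_Icc] at ht
      refine ⟨by linarith, by linarith, fun h3 => hbad s hs ⟨t, ?_, ?_⟩⟩
      · rw [abs_le]; constructor <;> linarith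
      · rw [hL]; exact h3
    · intro s hs
      obtain ⟨-, h1, h2⟩ := hS s (hS' hs)
      refine hunit s.im h1.le h2 _ fun s' hs' => ?_
      obtain ⟨h3, h4⟩ := Finset.mem_filter.1 hs'
      exact ⟨hstr s' (hS s' (hS' h3)).1.1, h4.trans (by norm_num)⟩
  rcases le_or_gt (κ' * h) (1 / 100) with hcase | hcase
  · -- many scales
    obtain ⟨J, hJ1, hJ2⟩ := exists_J (q := κ' * h) (by positivity) hcase
    have hrJ : 2 ^ J * h ≤ 1 / 100 := by
      have : 2 ^ J * h * 1 ≤ 2 ^ J * h * κ' := mul_le_mul_of_nonneg_left hκ'1 (by positivity)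
      nlinarith
    have hJ3 : 1 < 200 * κ' * (2 ^ J * h) := by
      rw [pow_succ] at hJ2
      nlinarith
    have hJ0 : ε0 ≤ 2 ^ J * h := by
      have h1 : ε0 * κ' < 2 ^ J * h * κ' := by rw [hε0κ]; nlinarith
      exact (lt_of_mul_lt_mul_right h1 hκ'0.le).le
    have hmon : ∀ i j : ℕ, i ≤ j → (2 : ℝ) ^ i * h ≤ 2 ^ j * h := fun i j hij =>
      mul_le_mul_of_nonneg_right (pow_le_pow_right₀ (by norm_num) hij) hh.le
    have hmon0 : ∀ j : ℕ, h ≤ 2 ^ j * h := fun j => by
      have := hmon 0 j (Nat.zero_le _)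
      rwa [pow_zero, one_mul] at this
    let P : ℕ → ℂ → Prop := fun j s => Gt (κ * L) η ε0 X s.im ∧ (∀ i : ℕ, j < i → i ≤ J →
      Gr κ η L X (2 ^ i * h) s.im) ∧ ¬ Gr κ η L X (2 ^ j * h) s.im
    have hcls : ∀ s ∈ S, ¬ Gt (κ * L) η ε0 X s.im ∨ ∃ j ∈ Finset.range (J + 1), P j s := by
      intro s hs
      by_cases hg : Gt (κ * L) η ε0 X s.im
      · right
        obtain ⟨h1, h2, h3⟩ := hS s hs
        have hne : ∃ j : ℕ, j ≤ J ∧ ¬ Gr κ η L X (2 ^ j * h) s.im := by
          by_contra hcon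
          push Not at hcon
          rw [hL] at hcon hg
          exact reg_all h0.diff h0.symm hu hκ0 hT2' hh hε hε1 hη0.le hηε hTε hε0.le hJ0 hh2 hrJ (by
            rw [← hL]; nlinarith) h1.1 h2 h3 hstr hg hcon h1
        obtain ⟨j, ⟨hjJ, hj1⟩, hj2⟩ : ∃ j : ℕ, (j ≤ J ∧ ¬ Gr κ η L X (2 ^ j * h) s.im) ∧
            ∀ i : ℕ, j < i → ¬ (i ≤ J ∧ ¬ Gr κ η L X (2 ^ i * h) s.im) := by
          obtain ⟨j0, hj0⟩ := hne
          refine ⟨Nat.findGreatest (fun j => j ≤ J ∧ ¬ Gr κ η L X (2 ^ j * h) s.im) J,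
            Nat.findGreatest_spec (P := fun j => j ≤ J ∧ ¬ Gr κ η L X (2 ^ j * h) s.im) hj0.1 hj0, ?_⟩
          intro i hi hi2
          exact Nat.findGreatest_is_greatest hi hi2.1 hi2
        refine ⟨j, Finset.mem_range.2 (by omega), hg, fun i hi1 hi2 => ?_, hj1⟩
        by_contra hcon
        exact hj2 i hi1 ⟨hi2, hcon⟩
      · exact Or.inl hg
    have hscale : ∀ j ∈ Finset.range (J + 1), ∑ s ∈ S.filter (P j), (analyticOrderNatAt (sh u h X) s : ℝ) ≤
        50 * C1 * C4 * (T * L) * Real.exp (-(c1 * κ * (h * L) * 2 ^ j)) := by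
      intro j hj
      have hjJ : j ≤ J := by rw [Finset.mem_range] at hj; omega
      obtain ⟨r, hr⟩ : ∃ r : ℝ, r = 2 ^ j * h := ⟨_, rfl⟩
      have hr0 : 0 < r := by rw [hr]; positivity
      have hr1 : r ≤ 1 / 100 := by rw [hr]; exact (hmon j J hjJ).trans hrJ
      have hrκ : κ * r ≤ 1 / 100 := by
        have h1 : κ * r ≤ κ' * r := mul_le_mul_of_nonneg_right hκκ' hr0.le
        have h2 : κ' * r ≤ 2 ^ J * (κ' * h) := by
          rw [hr]
          have := hmon j J hjJ
          nlinarith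
        linarith
      have hhr : h ≤ r := by rw [hr]; exact hmon0 j
      have hvol := Hg T r hTa (by
        rw [← hL]
        have h1 : κ * (h * L) ≤ κ * r * L := by nlinarith [mul_pos hκ0 hL0]
        linarith) hr0 hr1 hrκ
      rw [← hL] at hvol
      have hcov := Pool.Agent.W337.SD.cov (S.filter (P j)) (fun s => (analyticOrderNatAt (sh u h X) s : ℝ))
        {t0 : ℝ | T / 2 ≤ t0 ∧ t0 ≤ 3 * T ∧ ¬ NN (κ * r * L) η (fun z => X (I * t0 + r * z))}
        (r / 100) (C1 * T * Real.exp (-(c1 * (κ * r * L)))) (C4 * (r * L))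
        (by positivity) (by positivity) (by positivity) (fun s hs => hw0 s (Finset.mem_filter.1 hs).1) ?_ hvol ?_
      · refine hcov.trans (le_of_eq ?_)
        have e1 : c1 * (κ * r * L) = c1 * κ * (h * L) * 2 ^ j := by rw [hr]; ring
        rw [e1]
        field_simp
        ring
      · intro s hs t ht
        obtain ⟨hs1, hs2, hs3, hs4⟩ := Finset.mem_filter.1 hs
        obtain ⟨-, h1, h2⟩ := hS s hs1
        rw [mem_Icc] at ht
        refine ⟨by linarith, by linarith, fun h3 => hs4 ⟨t, ?_, ?_⟩⟩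
        · rw [← hr, abs_le]; constructor <;> linarith
        · rw [hr] at h3
          push_cast at h3 ⊢
          exact h3
      · intro s hs
        obtain ⟨hs1, hs2, hs3, hs4⟩ := Finset.mem_filter.1 hs
        obtain ⟨-, h1, h2⟩ := hS s hs1
        rcases Nat.lt_or_ge j J with hlt | hge
        · obtain ⟨t', ht1, ht2⟩ := hs3 (j + 1) (Nat.lt_succ_self j) hlt
          obtain ⟨r', hr'⟩ : ∃ r' : ℝ, r' = 2 ^ (j + 1) * h := ⟨_, rfl⟩
          have hr2 : r' = 2 * r := by rw [hr', hr, pow_succ]; ring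
          rw [← hr'] at ht1 ht2
          have hr'0 : 0 < r' := by linarith
          have hb := count_loc h0.diff (a := κ * r' * L) (by
            have h1 : κ * (h * L) ≤ κ * r' * L := by nlinarith [mul_pos hκ0 hL0]
            linarith) hη0.le (by linarith) hr'0 ht2 hu hh (by linarith) (by
              have e : κ * r' * L * (h / r') = κ * (h * L) := by field_simp
              rw [e]; linarith) ((S.filter (P j)).filter (fun s' => |s'.im - s.im| ≤ 2 * (r / 100))) ?_
          · refine hb.trans ?_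
            rw [hC4, hr2]
            have h3 : 0 ≤ 400 * κ' * C3 * (r * L) := by positivity
            have h4 : 36 / Real.log (9 / 5) * (κ * (2 * r) * L) = 72 * κ / Real.log (9 / 5) * (r * L) := by
              field_simp; ring
            rw [h4]
            linarith
          · intro s' hs'
            obtain ⟨h3, h4⟩ := Finset.mem_filter.1 hs'
            obtain ⟨k1, k2, k3, k4⟩ := Finset.mem_filter.1 h3
            have h5 := loc_chain h0.diff h0.symm hu hκ0 hL0 hh hη0.le (by linarith) hε0.le hJ0 hh2 k2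
              (hS s' k1).1.1 (hstr s' (hS s' k1).1.1) (j + 1) hlt (by rw [sub_self, abs_zero]; positivity) hrJ
              (fun i hi1 hi2 => k3 i (by omega) hi2)
            rw [← hr'] at h5
            refine ⟨by linarith, ?_⟩
            have h6 : |s'.im - t'| ≤ |s'.im - s.im| + |s.im - t'| := by
              rw [show s'.im - t' = (s'.im - s.im) + (s.im - t') by ring]
              exact abs_add_le _ _
            linarith
        · have hjeq : j = J := le_antisymm hjJ hge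
          have hb := hunit s.im h1.le h2 ((S.filter (P j)).filter (fun s' => |s'.im - s.im| ≤ 2 * (r / 100)))
            fun s' hs' => by
              obtain ⟨h3, h4⟩ := Finset.mem_filter.1 hs'
              obtain ⟨k1, -⟩ := Finset.mem_filter.1 h3
              exact ⟨hstr s' (hS s' k1).1.1, h4.trans (by linarith)⟩
          refine hb.trans ?_
          have h3 : 1 < 200 * κ' * r := by rw [hr, hjeq]; exact hJ3
          have h4 : 0 ≤ 72 * κ / Real.log (9 / 5) * (r * L) := by positivity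
          rw [hC4]
          have h5 : 0 < C3 * L := by positivity
          nlinarith
    have hsum : ∑ s ∈ S, (analyticOrderNatAt (sh u h X) s : ℝ) ≤
        ∑ s ∈ S.filter (fun s => ¬ Gt (κ * L) η ε0 X s.im), (analyticOrderNatAt (sh u h X) s : ℝ) +
        ∑ j ∈ Finset.range (J + 1), ∑ s ∈ S.filter (P j), (analyticOrderNatAt (sh u h X) s : ℝ) := by
      rw [Finset.sum_filter]
      simp_rw [Finset.sum_filter]
      rw [Finset.sum_comm, ← Finset.sum_add_distrib]
      refine Finset.sum_le_sum fun s hs => ?_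
      have hnn : ∀ j ∈ Finset.range (J + 1), (0 : ℝ) ≤ if P j s then (analyticOrderNatAt (sh u h X) s : ℝ) else 0 := by
        intro j _
        split_ifs
        · exact Nat.cast_nonneg _
        · exact le_rfl
      rcases hcls s hs with h1 | ⟨j, hj, h1⟩
      · rw [if_pos h1]
        have := Finset.sum_nonneg hnn
        linarith
      · have h2 := Finset.single_le_sum hnn hj
        rw [if_pos h1] at h2
        have h3 : (0 : ℝ) ≤ if ¬ Gt (κ * L) η ε0 X s.im then (analyticOrderNatAt (sh u h X) s : ℝ) else 0 := by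
          split_ifs
          · exact le_rfl
          · exact Nat.cast_nonneg _
        linarith
    refine hsum.trans ?_
    have h1 := htopS (S.filter (fun s => ¬ Gt (κ * L) η ε0 X s.im)) (Finset.filter_subset _ _)
      (fun s hs => (Finset.mem_filter.1 hs).2)
    have h2 := Finset.sum_le_sum hscale
    rw [← Finset.mul_sum] at h2
    have h3 := geo_sum hx00 (x := c1 * κ * (h * L)) (by rw [hx0]; exact mul_le_mul_of_nonneg_left hKh (by positivity))
      (J + 1)
    rw [← hC5] at h3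
    have hTL : 0 < T * L := by positivity
    have e1 : Real.exp (-(c1 * κ * (h * L))) ≤ Real.exp (-(min (c1 * κ) (2 * c2) * (h * L))) := by
      apply Real.exp_le_exp.2
      have : min (c1 * κ) (2 * c2) ≤ c1 * κ := min_le_left _ _
      have h5 : 0 < h * L := by positivity
      nlinarith
    have e2 : Real.exp (-(2 * c2 * (h * L))) ≤ Real.exp (-(min (c1 * κ) (2 * c2) * (h * L))) := by
      apply Real.exp_le_exp.2
      have : min (c1 * κ) (2 * c2) ≤ 2 * c2 := min_le_right _ _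
      have h5 : 0 < h * L := by positivity
      nlinarith
    have h6 : 50 * C1 * C4 * (T * L) * ∑ j ∈ Finset.range (J + 1), Real.exp (-(c1 * κ * (h * L) * 2 ^ j)) ≤
        50 * C1 * C4 * (T * L) * (C5 * Real.exp (-(min (c1 * κ) (2 * c2) * (h * L)))) := by
      refine mul_le_mul_of_nonneg_left (h3.trans ?_) (by positivity)
      exact mul_le_mul_of_nonneg_left e1 hC50.le
    have h7 : 100 * C2 * C3 * (T * L * Real.exp (-(2 * c2 * (h * L)))) ≤
        100 * C2 * C3 * (T * L * Real.exp (-(min (c1 * κ) (2 * c2) * (h * L)))) := by gcongr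
    calc _ ≤ 100 * C2 * C3 * (T * L * Real.exp (-(min (c1 * κ) (2 * c2) * (h * L)))) +
        50 * C1 * C4 * (T * L) * (C5 * Real.exp (-(min (c1 * κ) (2 * c2) * (h * L)))) := by linarith
      _ = _ := by ring
  · -- large shift
    have hεh : ε0 ≤ h := by
      have h1 : ε0 * κ' < h * κ' := by rw [hε0κ]; linarith
      exact (lt_of_mul_lt_mul_right h1 hκ'0.le).le
    have h1 := htopS S (Finset.Subset.refl _) fun s hs hg => by
      obtain ⟨k1, k2, k3⟩ := hS s hs
      rw [hL] at hg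
      refine reg_top h0 hst hz0 hu hκ0 hT2' hh hε hε1 hη0.le hηε hTε hh2 hεh ?_ k1.1 k2 k3 hg k1
      rw [← hL]
      nlinarith
    refine h1.trans ?_
    have e2 : Real.exp (-(2 * c2 * (h * L))) ≤ Real.exp (-(min (c1 * κ) (2 * c2) * (h * L))) := by
      apply Real.exp_le_exp.2
      have : min (c1 * κ) (2 * c2) ≤ 2 * c2 := min_le_right _ _
      have h5 : 0 < h * L := by positivity
      nlinarith
    have hTL : 0 < T * L := by positivity
    have h7 : 100 * C2 * C3 * (T * L * Real.exp (-(2 * c2 * (h * L)))) ≤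
        100 * C2 * C3 * (T * L * Real.exp (-(min (c1 * κ) (2 * c2) * (h * L)))) := by gcongr
    have h8 : 0 ≤ 50 * C1 * C4 * C5 * (T * L * Real.exp (-(min (c1 * κ) (2 * c2) * (h * L)))) := by positivity
    calc _ ≤ 100 * C2 * C3 * (T * L * Real.exp (-(min (c1 * κ) (2 * c2) * (h * L)))) +
        50 * C1 * C4 * C5 * (T * L * Real.exp (-(min (c1 * κ) (2 * c2) * (h * L)))) := by linarith
      _ = _ := by ring

end

end Pool.Agent.T6.H10.SA
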