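import Pool.Agent.T6.H10.SA.Reg
import Pool.Agent.T6.H10.SA.Cnt
import Pool.Agent.W337.SD.Cov

set_option autoImplicit false
set_option maxHeartbeats 4000000

/-!
# Shifted averages: counting the exceptional zeros at many scales
-/

namespace Pool.Agent.T6.H10.SA

open Complex Filter Topology Set MeasureTheory
open Pool.Agent.R838.TW (Sy)
open Pool.Agent.H24R2.DZ (NN)
open Pool.Agent.Y671.GL (CF FarL TopL GoodX)
open scoped ComplexConjugate

/-- Most points are good at all scales. -/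
def GoodR (κ : ℝ) (X : ℂ → ℂ) : Prop := ∀ η : ℝ, 0 < η → ∃ c C a0 T0 : ℝ, 0 < c ∧ 0 < C ∧ 1 ≤ a0 ∧ 2 ≤ T0 ∧
  ∀ T r : ℝ, T0 ≤ T → a0 ≤ κ * r * Real.log T → 0 < r → r ≤ 1 / 100 → κ * r ≤ 1 / 100 →
    volume {t0 : ℝ | T / 2 ≤ t0 ∧ t0 ≤ 3 * T ∧ ¬ NN (κ * r * Real.log T) η (fun z => X (I * t0 + r * z))} ≤
      ENNReal.ofReal (C * T * Real.exp (-(c * (κ * r * Real.log T))))

/-- The exceptional zeros. -/
def Irr (Y : ℂ → ℂ) (κ ε : ℝ) (s : ℂ) : Prop := Y s = 0 ∧ (s.re ≠ 0 ∨ deriv Y s = 0 ∨ ¬ Fol Y κ ε s)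

/-- good at the scale `r` near the height `y` -/
def Gr (κ η L : ℝ) (X : ℂ → ℂ) (r y : ℝ) : Prop :=
  ∃ t' : ℝ, |y - t'| ≤ r / 100 ∧ NN (κ * r * L) η (fun z => X (I * t' + r * z))

/-- good at the top -/
def Gt (A η ε0 : ℝ) (X : ℂ → ℂ) (y : ℝ) : Prop := ∃ t' : ℝ, |y - t'| ≤ 1 / 100 ∧ FarS X A η ε0 20 t'

section
variable {X : ℂ → ℂ} {u : ℂ} {h A η ε0 R t0 r κ ε T L : ℝ}

lemma farS_of_FarL {η1 t : ℝ} (hκ : 0 < κ) (hT : 2 ≤ T) (h1 : T / 2 ≤ t) (h2 : t ≤ 3 * T) (hη1 : 0 ≤ η1)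
    (hnum : κ * 2 + η1 * (Real.log T + 2) ≤ η * (κ * Real.log T)) (hF : FarL κ X R ε0 η1 t) :
    FarS X (κ * Real.log T) η ε0 R t := by
  intro z hz
  obtain ⟨h3, h4⟩ := hz
  obtain ⟨k1, k2⟩ := hF (z - I * t) (by simpa using h3) h4
  rw [show I * (t : ℂ) + (z - I * t) = z by ring] at k1 k2
  refine ⟨k1, ?_⟩
  have hT0 : 0 < T := by linarith
  have ht0 : 0 < t := by linarith
  have hl3 : Real.log 3 ≤ 2 := by
    have := Real.log_le_sub_one_of_pos (show (0 : ℝ) < 3 by norm_num)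
    linarith
  have hl2 : Real.log 2 ≤ 2 := by
    have := Real.log_le_sub_one_of_pos (show (0 : ℝ) < 2 by norm_num)
    linarith
  have k3 : Real.log t ≤ Real.log T + 2 := by
    have := Real.log_le_log ht0 h2
    rw [Real.log_mul (by norm_num) hT0.ne'] at this
    linarith
  have k4 : Real.log T - 2 ≤ Real.log t := by
    have := Real.log_le_log (by positivity) h1
    rw [Real.log_div hT0.ne' (by norm_num)] at this
    linarith
  have e : logDeriv X z - ((κ * Real.log T : ℝ) : ℂ) = (logDeriv X z - ((κ * Real.log t : ℝ) : ℂ)) +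
      ((κ * (Real.log t - Real.log T) : ℝ) : ℂ) := by push_cast; ring
  rw [e]
  refine (norm_add_le _ _).trans ?_
  rw [Complex.norm_real, Real.norm_eq_abs, abs_mul, abs_of_pos hκ]
  have k5 : |Real.log t - Real.log T| ≤ 2 := by rw [abs_le]; constructor <;> linarith
  have k6 : κ * |Real.log t - Real.log T| ≤ κ * 2 := mul_le_mul_of_nonneg_left k5 hκ.le
  have k7 : η1 * Real.log t ≤ η1 * (Real.log T + 2) := mul_le_mul_of_nonneg_left k3 hη1
  linarith

/-- location of the zeros -/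
lemma loc_chain (hd : Differentiable ℂ X) (hs : ∀ z : ℂ, X (-(conj z)) = conj (X z)) (hu : ‖u‖ = 1)
    (hκ : 0 < κ) (hL : 0 < L) (hh : 0 < h) (hη0 : 0 ≤ η) (hη : η < 1) (hε0 : 0 ≤ ε0) {y : ℝ} {J : ℕ}
    (hJ0 : ε0 ≤ 2 ^ J * h) (hh2 : h ≤ 1 / 2)
    (htop : Gt (κ * L) η ε0 X y) {z : ℂ} (hz : sh u h X z = 0) (hz1 : |z.re| ≤ 1 / 2) (j0 : ℕ) (hj0 : j0 ≤ J)
    (hzy : |z.im - y| ≤ 2 ^ j0 * h / 50) (hrJ : 2 ^ J * h ≤ 1 / 100)
    (hgood : ∀ j : ℕ, j0 ≤ j → j ≤ J → Gr κ η L X (2 ^ j * h) y) : |z.re| < h + 2 ^ j0 * h / 1000 := by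
  have hA : 0 < κ * L := by positivity
  have h2j : ∀ j : ℕ, (1 : ℝ) ≤ 2 ^ j := fun j => one_le_pow₀ (by norm_num)
  have hmon : ∀ i j : ℕ, i ≤ j → (2 : ℝ) ^ i * h ≤ 2 ^ j * h := fun i j hij =>
    mul_le_mul_of_nonneg_right (pow_le_pow_right₀ (by norm_num) hij) hh.le
  -- the top
  have h0 : |z.re| < h + ε0 := by
    obtain ⟨t', h1, h2⟩ := htop
    refine step hd hs hu h2 hA hη hh hε0 hz hz1 ?_
    have h3 : |z.im - t'| ≤ |z.im - y| + |y - t'| := by
      rw [show z.im - t' = (z.im - y) + (y - t') by ring]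
      exact abs_add_le _ _
    have h4 := hmon j0 J hj0
    linarith
  have key : ∀ k : ℕ, k ≤ J - j0 → |z.re| < h + 2 ^ (J - k) * h / 1000 := by
    intro k
    induction k with
    | zero =>
      intro _
      rw [Nat.sub_zero]
      obtain ⟨t', h1, h2⟩ := hgood J hj0 le_rfl
      have hrp : 0 < 2 ^ J * h := by positivity
      have hFar := farS_of_NN hd hrp h2
      rw [show κ * (2 ^ J * h) * L / (2 ^ J * h) = κ * L by field_simp] at hFar
      refine step hd hs hu hFar hA hη hh (by positivity) hz h0.le ?_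
      have h3 : |z.im - t'| ≤ |z.im - y| + |y - t'| := by
        rw [show z.im - t' = (z.im - y) + (y - t') by ring]
        exact abs_add_le _ _
      have h4 := hmon j0 J hj0
      have h5 := hmon 0 J (Nat.zero_le _)
      rw [pow_zero, one_mul] at h5
      linarith
    | succ k ih =>
      intro hk
      have h1 := ih (by omega)
      obtain ⟨j, hj⟩ : ∃ j, j = J - (k + 1) := ⟨_, rfl⟩
      have hj1 : J - k = j + 1 := by omega
      rw [← hj]
      rw [hj1, pow_succ] at h1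
      obtain ⟨t', h2, h3⟩ := hgood j (by omega) (by omega)
      have hrp : 0 < 2 ^ j * h := by positivity
      have hFar := farS_of_NN hd hrp h3
      rw [show κ * (2 ^ j * h) * L / (2 ^ j * h) = κ * L by field_simp] at hFar
      refine step hd hs hu hFar hA hη hh (by positivity) hz h1.le ?_
      have h4 : |z.im - t'| ≤ |z.im - y| + |y - t'| := by
        rw [show z.im - t' = (z.im - y) + (y - t') by ring]
        exact abs_add_le _ _
      have h5 := hmon j0 j (by omega)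
      have h6 := hmon 0 j (Nat.zero_le _)
      rw [pow_zero, one_mul] at h6
      linarith
  have := key (J - j0) le_rfl
  rwa [show J - (J - j0) = j0 by omega] at this

/-- all scales good: regular -/
lemma reg_all (hd : Differentiable ℂ X) (hs : ∀ z : ℂ, X (-(conj z)) = conj (X z)) (hu : ‖u‖ = 1)
    (hκ : 0 < κ) (hT : 2 ≤ T) (hh : 0 < h) (hε : 0 < ε) (hε1 : ε ≤ 1) (hη0 : 0 ≤ η)
    (hηε : 5 * η ≤ ε / 16) (hTε : 6 / ε ≤ Real.log T)
    (hε0 : 0 ≤ ε0) {J : ℕ} (hJ0 : ε0 ≤ 2 ^ J * h) (hh2 : h ≤ 1 / 2) (hrJ : 2 ^ J * h ≤ 1 / 100)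
    (hK : 400 ≤ κ * h * Real.log T) {s : ℂ} (hz : sh u h X s = 0) (h1 : T < s.im) (h2 : s.im ≤ 2 * T)
    (hstr : ∀ z, sh u h X z = 0 → |z.re| ≤ 1 / 2)
    (htop : Gt (κ * Real.log T) η ε0 X s.im)
    (hgood : ∀ j : ℕ, j ≤ J → Gr κ η (Real.log T) X (2 ^ j * h) s.im) : ¬ Irr (sh u h X) κ ε s := by
  have hL : 0 < Real.log T := Real.log_pos (by linarith)
  have hA : 0 < κ * Real.log T := by positivity
  have hη1 : η ≤ 1 / 10 := by linarith
  obtain ⟨t', k1, k2⟩ := hgood 0 (Nat.zero_le _)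
  rw [pow_zero, one_mul] at k1 k2
  have hFar := farS_of_NN hd hh k2
  rw [show κ * h * Real.log T / h = κ * Real.log T by field_simp] at hFar
  have hnear := fun z h1 h2 => near_of_NN hh k2 z h1 h2
  have hg0 : 4 / (κ * Real.log T) ≤ h / 100 := by
    rw [div_le_iff₀ hA]
    nlinarith
  have hax : ∀ z : ℂ, sh u h X z = 0 → |z.im - s.im| ≤ h / 100 → z.re = 0 := by
    intro z hz1 hz2
    have h3 := loc_chain hd hs hu hκ hL hh hη0 (by linarith) hε0 hJ0 hh2 htop hz1 (hstr z hz1) 0 (Nat.zero_le _)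
      (by rw [pow_zero, one_mul]; linarith) hrJ (fun j _ hj => hgood j hj)
    rw [pow_zero, one_mul] at h3
    refine final_axis hd hs hu hh hFar (fun w hw1 hw2 => ?_) hA hη1 hη0 hz1 h3 ?_
    · have := hnear w hw1 hw2
      rwa [show κ * h * Real.log T = κ * Real.log T * h by ring] at this
    · have h4 : |z.im - t'| ≤ |z.im - s.im| + |s.im - t'| := by
        rw [show z.im - t' = (z.im - s.im) + (s.im - t') by ring]
        exact abs_add_le _ _
      linarith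
  have hmem : ∀ t ∈ Icc (0 : ℝ) (4 / (κ * Real.log T)), (h : ℂ) + I * s.im + t * I ∈ HS (h / 1000) (20 * h) t' := by
    intro t ht
    refine ⟨?_, (Complex.norm_le_abs_re_add_abs_im _).trans ?_⟩
    · simp
      linarith
    · have e1 : ((h : ℂ) + I * s.im + t * I - I * t').re = h := by simp
      have e2 : ((h : ℂ) + I * s.im + t * I - I * t').im = (s.im - t') + t := by simp; ring
      rw [e1, e2, abs_of_pos hh]
      have h4 : |s.im - t' + t| ≤ |s.im - t'| + |t| := abs_add_le _ _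
      rw [abs_of_nonneg ht.1] at h4
      have h5 := ht.2
      linarith
  obtain ⟨r1, r2, r3⟩ := reg_of hd hs (HS_convex _ _ _) hκ hT hFar hη0 hε hε1 hηε hTε hu hg0 hax hmem h1 h2 hz
  rintro ⟨-, h4 | h4 | h4⟩
  · exact h4 r1
  · exact r2 h4
  · exact h4 r3

/-- large `h`: the top condition suffices -/
lemma reg_top (h0 : Sy X) (hst : ∀ s : ℂ, X s = 0 → |s.re| ≤ 1 / 2) (hz0 : ∃ z, X z = 0) (hu : ‖u‖ = 1)
    (hκ : 0 < κ) (hT : 2 ≤ T) (hh : 0 < h) (hε : 0 < ε) (hε1 : ε ≤ 1) (hη0 : 0 ≤ η)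
    (hηε : 5 * η ≤ ε / 16) (hTε : 6 / ε ≤ Real.log T)
    (hh2 : h ≤ 1 / 2) (hε0 : ε0 ≤ h) (hK : 40 ≤ κ * Real.log T) {s : ℂ} (hz : sh u h X s = 0) (h1 : T < s.im)
    (h2 : s.im ≤ 2 * T) (htop : Gt (κ * Real.log T) η ε0 X s.im) : ¬ Irr (sh u h X) κ ε s := by
  have hA : 0 < κ * Real.log T := by linarith
  obtain ⟨t', k1, hFar⟩ := htop
  have hg0 : 4 / (κ * Real.log T) ≤ 1 / 10 := by
    rw [div_le_iff₀ hA]
    linarith
  have hax : ∀ z : ℂ, sh u h X z = 0 → |z.im - s.im| ≤ 1 / 10 → z.re = 0 := by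
    intro z hz1 hz2
    refine free_axis h0 hst hz0 hu hh hz1 fun ρ hρ hρh => ?_
    by_contra hlt
    push Not at hlt
    have h3 : |ρ.im - t'| ≤ |z.im - ρ.im| + (|z.im - s.im| + |s.im - t'|) := by
      rw [show ρ.im - t' = -(z.im - ρ.im) + ((z.im - s.im) + (s.im - t')) by ring]
      refine (abs_add_le _ _).trans ?_
      rw [abs_neg]
      exact add_le_add_right (abs_add_le _ _) _
    have h4 := hst ρ hρ
    have h5 : ∀ w : ℂ, ε0 ≤ w.re → |w.re| ≤ 1 / 2 → |w.im - t'| ≤ 3 → X w ≠ 0 := by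
      intro w hw1 hw2 hw3
      refine (hFar w ⟨hw1, (Complex.norm_le_abs_re_add_abs_im _).trans ?_⟩).1
      have e1 : (w - I * t').re = w.re := by simp
      have e2 : (w - I * t').im = w.im - t' := by simp
      rw [e1, e2]
      linarith
    rcases lt_abs.1 hρh with h6 | h6
    · exact h5 ρ (by linarith) h4 (by linarith) hρ
    · refine h5 (-(conj ρ)) (by simp; linarith) (by simpa using h4) (by simp; linarith) ?_
      rw [h0.symm, hρ, map_zero]
  have hmem : ∀ t ∈ Icc (0 : ℝ) (4 / (κ * Real.log T)), (h : ℂ) + I * s.im + t * I ∈ HS ε0 20 t' := by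
    intro t ht
    refine ⟨?_, (Complex.norm_le_abs_re_add_abs_im _).trans ?_⟩
    · simp
      linarith
    · have e1 : ((h : ℂ) + I * s.im + t * I - I * t').re = h := by simp
      have e2 : ((h : ℂ) + I * s.im + t * I - I * t').im = (s.im - t') + t := by simp; ring
      rw [e1, e2, abs_of_pos hh]
      have h4 : |s.im - t' + t| ≤ |s.im - t'| + |t| := abs_add_le _ _
      rw [abs_of_nonneg ht.1] at h4
      have h5 := ht.2
      linarith
  obtain ⟨r1, r2, r3⟩ := reg_of h0.diff h0.symm (HS_convex _ _ _) hκ hT hFar hη0 hε hε1 hηε hTε hu hg0 hax hmem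
    h1 h2 hz
  rintro ⟨-, h4 | h4 | h4⟩
  · exact h4 r1
  · exact r2 h4
  · exact h4 r3

/-- the number of scales -/
lemma exists_J {q : ℝ} (hq : 0 < q) (hq1 : q ≤ 1 / 100) : ∃ J : ℕ, 2 ^ J * q ≤ 1 / 100 ∧ 1 / 100 < 2 ^ (J + 1) * q := by
  classical
  have hex : ∃ n : ℕ, 1 / 100 < 2 ^ (n + 1) * q := by
    obtain ⟨n, hn⟩ := pow_unbounded_of_one_lt (1 / (100 * q)) (show (1 : ℝ) < 2 by norm_num)
    refine ⟨n, ?_⟩
    rw [div_lt_iff₀ (by positivity)] at hn
    have : (2 : ℝ) ^ (n + 1) = 2 * 2 ^ n := by ring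
    rw [this]
    nlinarith [pow_pos (show (0 : ℝ) < 2 by norm_num) n]
  refine ⟨Nat.find hex, ?_, Nat.find_spec hex⟩
  rcases Nat.eq_zero_or_pos (Nat.find hex) with h0 | h0
  · rw [h0, pow_zero, one_mul]; exact hq1
  · have := Nat.find_min hex (m := Nat.find hex - 1) (by omega)
    push Not at this
    rwa [show Nat.find hex - 1 + 1 = Nat.find hex by omega] at this

lemma geo_sum {x x0 : ℝ} (hx0 : 0 < x0) (hx : x0 ≤ x) (n : ℕ) :
    ∑ j ∈ Finset.range n, Real.exp (-(x * 2 ^ j)) ≤ 1 / (1 - Real.exp (-x0)) * Real.exp (-x) := by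
  have hq0 : 0 ≤ Real.exp (-x) := (Real.exp_pos _).le
  have hq1 : Real.exp (-x0) < 1 := by rw [Real.exp_lt_one_iff]; linarith
  have hqq : Real.exp (-x) ≤ Real.exp (-x0) := Real.exp_le_exp.2 (by linarith)
  have h1 : ∀ j ∈ Finset.range n, Real.exp (-(x * 2 ^ j)) ≤ Real.exp (-x) * Real.exp (-x) ^ j := by
    intro j _
    rw [← Real.exp_nat_mul, ← Real.exp_add]
    apply Real.exp_le_exp.2
    have h2 : (j : ℝ) + 1 ≤ 2 ^ j := by
      have : j + 1 ≤ 2 ^ j := Nat.lt_two_pow_self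
      exact_mod_cast this
    nlinarith
  refine (Finset.sum_le_sum h1).trans ?_
  rw [← Finset.mul_sum, mul_comm]
  refine mul_le_mul_of_nonneg_right ?_ hq0
  have h3 : ∑ j ∈ Finset.range n, Real.exp (-x) ^ j ≤ (1 - Real.exp (-x))⁻¹ := by
    have hs := summable_geometric_of_lt_one hq0 (lt_of_le_of_lt hqq hq1)
    have := hs.sum_le_tsum (Finset.range n) (fun i _ => pow_nonneg hq0 i)
    rwa [tsum_geometric_of_lt_one hq0 (lt_of_le_of_lt hqq hq1)] at this
  refine h3.trans ?_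
  rw [inv_eq_one_div]
  apply one_div_le_one_div_of_le <;> linarith

end

end Pool.Agent.T6.H10.SA
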