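import Pool.Agent.T6.H10.SA.Ax
import Pool.Agent.T6.H10.SA.DeB

set_option autoImplicit false
set_option maxHeartbeats 4000000

/-!
# Shifted averages: regular zeros
-/

namespace Pool.Agent.T6.H10.SA

open Complex Filter Topology Set
open Pool.Agent.R838.TW (Sy)
open scoped ComplexConjugate

/-- The next zero of `Y` above `s` is simple and lies vertically above `s`, at a distance `g` with
`|g κ log (Im s) - π| ≤ ε`; and `s` and `s + i g` are the only zeros with imaginary part in `[Im s, Im s + g]`. -/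
def Fol (Y : ℂ → ℂ) (κ ε : ℝ) (s : ℂ) : Prop :=
  ∃ g : ℝ, 0 < g ∧ |g * (κ * Real.log s.im) - Real.pi| ≤ ε ∧
    Y (s + g * I) = 0 ∧ deriv Y (s + g * I) ≠ 0 ∧
    ∀ z : ℂ, Y z = 0 → s.im ≤ z.im → z.im ≤ s.im + g → z = s ∨ z = s + g * I

section
variable {X : ℂ → ℂ} {u : ℂ} {h A η ε0 R t0 r κ ε T : ℝ} {S : Set ℂ}

/-- zeros in the right half plane from zeros -/
lemma refl_zero (hs : ∀ z : ℂ, X (-(conj z)) = conj (X z)) {z : ℂ} (hz : sh u h X z = 0) :
    sh u h X (-(conj z)) = 0 := by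
  rw [sh_symm hs, hz, map_zero]

/-- to prove a bound for `|Re z|` it suffices to exclude zeros in the right half plane -/
lemma abs_bound (hs : ∀ z : ℂ, X (-(conj z)) = conj (X z)) {z : ℂ} (hz : sh u h X z = 0) {B B' : ℝ}
    (hB : ∀ w : ℂ, sh u h X w = 0 → w.im = z.im → |w.re| ≤ B' → B ≤ w.re → False) (h1 : |z.re| ≤ B') : |z.re| < B := by
  by_contra hlt
  push Not at hlt
  rcases le_abs.1 hlt with h2 | h2
  · exact hB z hz rfl h1 h2
  · refine hB (-(conj z)) (refl_zero hs hz) (by simp) ?_ ?_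
    · simpa using h1
    · simpa using h2

/-- one scale -/
lemma step (hd : Differentiable ℂ X) (hs : ∀ z : ℂ, X (-(conj z)) = conj (X z)) (hu : ‖u‖ = 1)
    (hF : FarS X A η ε0 R t0) (hA : 0 < A) (hη : η < 1) (hh : 0 < h) (hε : 0 ≤ ε0) {z : ℂ} (hz : sh u h X z = 0)
    {B : ℝ} (h1 : |z.re| ≤ B) (h2 : B + h + |z.im - t0| ≤ R) : |z.re| < h + ε0 := by
  refine abs_bound hs hz (B' := B) (fun w hw hwi hw1 hw2 => ?_) h1
  refine sh_ne hu (lt_right hd hF hA hη hh hw2 ?_ hε) hw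
  have h3 : w.re ≤ |w.re| := le_abs_self _
  rw [hwi]
  linarith

/-- the natural scale -/
lemma final_axis (hd : Differentiable ℂ X) (hs : ∀ z : ℂ, X (-(conj z)) = conj (X z)) (hu : ‖u‖ = 1)
    (hh : 0 < h) (hF : FarS X A η (h / 1000) (20 * h) t0)
    (hN : ∀ z : ℂ, |z.re| ≤ h / 1000 → ‖z - I * t0‖ ≤ 20 * h →
      ‖X z‖ ≤ ‖X (I * t0 + h)‖ * Real.exp (-(9 / 10 * (A * h))))
    (hA : 0 < A) (hη : η ≤ 1 / 10) (hη0 : 0 ≤ η) {z : ℂ} (hz : sh u h X z = 0)
    (h1 : |z.re| < h + h / 1000) (h2 : |z.im - t0| ≤ h) : z.re = 0 := by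
  have key : ∀ w : ℂ, sh u h X w = 0 → w.im = z.im → |w.re| < h + h / 1000 → w.re ≤ 0 := by
    intro w hw hwi hw1
    by_contra hpos
    push Not at hpos
    rw [abs_of_pos hpos] at hw1
    rw [← hwi] at h2
    rcases le_or_gt w.re (h - h / 1000) with h3 | h3
    · exact sh_ne hu (lt_refl hd hs hF hA (by linarith) hpos h3 (by linarith) (by positivity)) hw
    · exact sh_ne hu (lt_mid hd hh hF hN hA hη hη0 (by rw [abs_le]; constructor <;> linarith) h2) hw
  have h3 := key z hz rfl h1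
  have h4 := key (-(conj z)) (refl_zero hs hz) (by simp) (by simpa using h1)
  simp at h4
  linarith

/-- zeros are on the axis if `X` has no zeros at distance more than `h` from the axis nearby -/
lemma free_axis (h0 : Sy X) (hst : ∀ s : ℂ, X s = 0 → |s.re| ≤ 1 / 2) (hz0 : ∃ z, X z = 0) (hu : ‖u‖ = 1)
    (hh : 0 < h) {z : ℂ} (hz : sh u h X z = 0) (hfree : ∀ ρ : ℂ, X ρ = 0 → h < |ρ.re| → 1 ≤ |z.im - ρ.im|) :
    z.re = 0 := by
  have key : ∀ w : ℂ, sh u h X w = 0 → w.im = z.im → w.re ≤ 0 := by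
    intro w hw hwi
    by_contra hpos
    push Not at hpos
    refine sh_ne hu (shift_lt h0 hst hz0 (δ := 1 / 2) hh hpos (by norm_num) fun ρ hρ hρh => ?_) hw
    have h1 := hfree ρ hρ hρh
    rw [← hwi] at h1
    have h2 : ρ.re ^ 2 ≤ (1 / 2) ^ 2 := by
      rw [← sq_abs]
      exact pow_le_pow_left₀ (abs_nonneg _) (hst ρ hρ) 2
    have h3 : 1 ^ 2 ≤ (w.im - ρ.im) ^ 2 := by
      rw [← sq_abs (w.im - ρ.im)]
      exact pow_le_pow_left₀ (by norm_num) h1 2
    nlinarith [sq_nonneg w.re, sq_nonneg h]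
  have h3 := key z hz rfl
  have h4 := key (-(conj z)) (refl_zero h0.symm hz) (by simp)
  simp at h4
  linarith

/-- all zeros of the shifted average are in the strip -/
lemma sh_strip (h0 : Sy X) (hst : ∀ s : ℂ, X s = 0 → |s.re| ≤ 1 / 2) (hz0 : ∃ z, X z = 0) (hu : ‖u‖ = 1)
    (hh : 0 < h) {z : ℂ} (hz : sh u h X z = 0) : |z.re| ≤ 1 / 2 := by
  have key : ∀ w : ℂ, sh u h X w = 0 → w.re ≤ 1 / 2 := by
    intro w hw
    by_contra hgt
    push Not at hgt
    refine sh_ne hu (shift_lt h0 hst hz0 (δ := w.re ^ 2 - (1 / 2) ^ 2) hh (by linarith) (by nlinarith)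
      fun ρ hρ _ => ?_) hw
    have h2 : ρ.re ^ 2 ≤ (1 / 2) ^ 2 := by
      rw [← sq_abs]
      exact pow_le_pow_left₀ (abs_nonneg _) (hst ρ hρ) 2
    nlinarith [sq_nonneg (w.im - ρ.im), sq_nonneg h]
  rw [abs_le]
  constructor
  · have := key _ (refl_zero h0.symm hz)
    simp at this
    linarith
  · exact key z hz

/-- regular zeros -/
lemma reg_of (hd : Differentiable ℂ X) (hs : ∀ z : ℂ, X (-(conj z)) = conj (X z)) (hS : Convex ℝ S)
    (hκ : 0 < κ) (hT : 2 ≤ T)
    (hF : ∀ z ∈ S, X z ≠ 0 ∧ ‖logDeriv X z - ((κ * Real.log T : ℝ) : ℂ)‖ ≤ η * (κ * Real.log T))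
    (hη : 0 ≤ η) (hε : 0 < ε) (hε1 : ε ≤ 1) (hηε : 5 * η ≤ ε / 16) (hTε : 6 / ε ≤ Real.log T) (hu : ‖u‖ = 1)
    {s : ℂ} {g0 : ℝ} (hg0 : 4 / (κ * Real.log T) ≤ g0)
    (hax : ∀ z : ℂ, sh u h X z = 0 → |z.im - s.im| ≤ g0 → z.re = 0)
    (hmem : ∀ t ∈ Icc (0 : ℝ) (4 / (κ * Real.log T)), (h : ℂ) + I * s.im + t * I ∈ S)
    (h1 : T < s.im) (h2 : s.im ≤ 2 * T) (hz : sh u h X s = 0) :
    s.re = 0 ∧ deriv (sh u h X) s ≠ 0 ∧ Fol (sh u h X) κ ε s := by
  have hL : 0 < Real.log T := Real.log_pos (by linarith)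
  have hA : 0 < κ * Real.log T := by positivity
  have h4A : 0 < 4 / (κ * Real.log T) := by positivity
  have hre : s.re = 0 := hax s hz (by rw [sub_self, abs_zero]; linarith)
  have hsI : s = I * s.im := by
    apply Complex.ext
    · simp [hre]
    · simp
  obtain ⟨n1, g, n2, n3, n4, n5, n6⟩ := next_zero hd hs hS hF hA hη (ε := ε / 2) (by linarith) (by linarith)
    (by linarith) hu hmem (by rw [← hsI]; exact hz)
  rw [← hsI] at n1
  have hsg : s + g * I = I * ((s.im + g : ℝ) : ℂ) := by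
    conv_lhs => rw [hsI]
    push_cast
    ring
  have hpi := Real.pi_lt_d2
  norm_num at hpi
  have hAg : κ * Real.log T * g ≤ 4 := by
    have := (abs_le.1 n3).2
    linarith
  have hg4 : g ≤ 4 / (κ * Real.log T) := by
    rw [le_div_iff₀ hA]
    linarith
  refine ⟨hre, n1, g, n2, ?_, ?_, ?_, ?_⟩
  · have hlog : |Real.log s.im - Real.log T| ≤ Real.log 2 := by
      have hT0 : 0 < T := by linarith
      have k1 : Real.log T ≤ Real.log s.im := Real.log_le_log hT0 h1.le
      have k2 : Real.log s.im ≤ Real.log 2 + Real.log T := by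
        rw [← Real.log_mul (by norm_num) hT0.ne']
        exact Real.log_le_log (by linarith) h2
      rw [abs_of_nonneg (by linarith)]
      linarith
    have hl2 : Real.log 2 ≤ 3 / 4 := by
      have := Real.log_two_lt_d9
      linarith
    have e1 : g * (κ * Real.log s.im) - Real.pi =
        (κ * Real.log T * g - Real.pi) + g * κ * (Real.log s.im - Real.log T) := by ring
    rw [e1]
    refine (abs_add_le _ _).trans ?_
    have h3 : |g * κ * (Real.log s.im - Real.log T)| ≤ ε / 2 := by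
      rw [abs_mul, abs_of_pos (mul_pos n2 hκ)]
      have h4 : g * κ ≤ 4 / Real.log T := by
        rw [le_div_iff₀ hL]
        linarith
      have h5 : 4 / Real.log T ≤ 2 / 3 * ε := by
        rw [div_le_iff₀ hL]
        rw [div_le_iff₀ hε] at hTε
        linarith
      calc g * κ * |Real.log s.im - Real.log T| ≤ (2 / 3 * ε) * (3 / 4) :=
            mul_le_mul (h4.trans h5) (hlog.trans hl2) (abs_nonneg _) (by positivity)
        _ = ε / 2 := by ring
    linarith
  · rw [hsg]; exact n4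
  · rw [hsg]; exact n5
  · intro z hz2 hz3 hz4
    have hzre : z.re = 0 := hax z hz2 (by
      rw [abs_of_nonneg (by linarith)]
      linarith)
    have hzI : z = I * z.im := by
      apply Complex.ext
      · simp [hzre]
      · simp
    rcases eq_or_lt_of_le hz3 with h3 | h3
    · left
      rw [hzI, hsI, ← h3]
    · rcases eq_or_lt_of_le hz4 with h4 | h4
      · right
        rw [hsg, hzI, h4]
      · exfalso
        refine n6 z.im h3 h4 ?_
        rw [← hzI]
        exact hz2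

end

end Pool.Agent.T6.H10.SA
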