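import Pool.Agent.T6.H10.SA.Main

set_option autoImplicit false
set_option maxHeartbeats 4000000

/-!
# Shifted averages: lower bound for the number of all zeros in dyadic windows
-/

namespace Pool.Agent.T6.H10.SA

open Complex Filter Topology Set MeasureTheory
open Pool.Agent.R838.TW (Sy)
open Pool.Agent.H24R2.DZ (NN)
open Pool.Agent.Y671.GL (CF FarL TopL GoodX)
open scoped ComplexConjugate

section
variable {X : ℂ → ℂ} {u : ℂ} {h κ : ℝ}

/-- counting by covering -/
lemma low_cov {A T b : ℝ} (hA : 0 < A) (hA4 : 4 / A ≤ 1) (hb0 : 0 ≤ b) (S : Finset ℂ) (bad : Set ℝ)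
    (hb : volume bad ≤ ENNReal.ofReal b)
    (hall : ∀ s, sh u h X s = 0 → T < s.im → s.im ≤ 2 * T → s ∈ S)
    (hgood : ∀ t, T < t → t < 2 * T - 1 → t ∉ bad → ∃ y : ℝ, t ≤ y ∧ y ≤ t + 4 / A ∧ sh u h X (I * y) = 0) :
    T - 1 ≤ b + S.card * (4 / A) := by
  have h4A : 0 ≤ 4 / A := by positivity
  have hsub : Ioo T (2 * T - 1) ⊆ bad ∪ ⋃ s ∈ S, Icc (s.im - 4 / A) s.im := by
    intro t ht
    by_cases htb : t ∈ bad
    · exact Or.inl htb
    · right
      obtain ⟨y, h1, h2, h3⟩ := hgood t ht.1 ht.2 htb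
      have him : (I * (y : ℂ)).im = y := by simp
      have h4 := hall (I * y) h3 (by rw [him]; linarith [ht.1]) (by rw [him]; linarith [ht.2])
      refine Set.mem_biUnion h4 ?_
      rw [him, mem_Icc]
      constructor <;> linarith
  have h1 : volume (Ioo T (2 * T - 1)) ≤ ENNReal.ofReal b + ∑ s ∈ S, ENNReal.ofReal (4 / A) := by
    refine (measure_mono hsub).trans ((measure_union_le _ _).trans (add_le_add hb ?_))
    refine (measure_biUnion_finset_le _ _).trans (Finset.sum_le_sum fun s _ => ?_)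
    rw [Real.volume_Icc]
    apply ENNReal.ofReal_le_ofReal
    linarith
  rw [Real.volume_Ioo, Finset.sum_const, nsmul_eq_mul, ← ENNReal.ofReal_natCast,
    ← ENNReal.ofReal_mul (Nat.cast_nonneg _), ← ENNReal.ofReal_add hb0 (by positivity)] at h1
  have h2 := (ENNReal.ofReal_le_ofReal_iff (by positivity)).1 h1
  linarith

/-- many zeros on the axis -/
theorem main_low (hκ : 1 / 2 ≤ κ) (h0 : Sy X) (hgood : GoodR κ X) (htop : TopL κ X) :
    ∃ c K T0 : ℝ, 0 < c ∧ 1 ≤ K ∧ 2 ≤ T0 ∧ ∀ (T h : ℝ) (u : ℂ), T0 ≤ T → 0 < h → h ≤ 1 / 2 →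
      K ≤ h * Real.log T → ‖u‖ = 1 → ∀ S : Finset ℂ,
      (∀ s, sh u h X s = 0 → T < s.im → s.im ≤ 2 * T → s ∈ S) → c * T * Real.log T ≤ S.card := by
  have hκ0 : 0 < κ := by linarith
  obtain ⟨κ', hκ'⟩ : ∃ κ' : ℝ, κ' = max 1 κ := ⟨_, rfl⟩
  have hκ'1 : 1 ≤ κ' := by rw [hκ']; exact le_max_left _ _
  have hκκ' : κ ≤ κ' := by rw [hκ']; exact le_max_right _ _
  have hκ'0 : 0 < κ' := by linarith
  obtain ⟨ε0, hε0d⟩ : ∃ ε0 : ℝ, ε0 = 1 / (1000 * κ') := ⟨_, rfl⟩
  have hε0 : 0 < ε0 := by rw [hε0d]; positivity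
  have hε0κ : ε0 * κ' = 1 / 1000 := by rw [hε0d]; field_simp
  obtain ⟨c1, C1, a1, T1, hc1, hC1, ha1, hT1, Hg⟩ := hgood (1 / 1000) (by norm_num)
  obtain ⟨c2, C2, T2, hc2, hC2, hT2, Ht⟩ := top_conv hκ0 htop hε0 (show (0 : ℝ) < 1 / 1000 by norm_num)
  obtain ⟨K, hK⟩ : ∃ K : ℝ, K = (400 + a1 + Real.log (4 * C1 + 1) / c1) / κ + 1 := ⟨_, rfl⟩
  have hlog1 : 0 ≤ Real.log (4 * C1 + 1) := Real.log_nonneg (by linarith)
  have hK1 : 1 ≤ K := by
    rw [hK]
    have : 0 ≤ (400 + a1 + Real.log (4 * C1 + 1) / c1) / κ := by positivity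
    linarith
  have hKκ : 400 + a1 + Real.log (4 * C1 + 1) / c1 ≤ κ * K := by
    rw [hK, mul_add, mul_div_cancel₀ _ hκ0.ne']
    linarith
  refine ⟨κ / 16, K, max (max T1 T2) ((4 * C2) ^ (1 / c2)) + 3, by positivity, hK1, ?_, ?_⟩
  · have : 2 ≤ max (max T1 T2) ((4 * C2) ^ (1 / c2)) := hT1.trans ((le_max_left _ _).trans (le_max_left _ _))
    linarith
  intro T h u hT hh hh2 hKh hu S hS
  have hTa : T1 ≤ T := by
    have := (le_max_left T1 T2).trans (le_max_left _ ((4 * C2) ^ (1 / c2)))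
    linarith
  have hTb : T2 ≤ T := by
    have := (le_max_right T1 T2).trans (le_max_left _ ((4 * C2) ^ (1 / c2)))
    linarith
  have hTc : (4 * C2) ^ (1 / c2) ≤ T := by
    have := le_max_right (max T1 T2) ((4 * C2) ^ (1 / c2))
    linarith
  have hT5 : 5 ≤ T := by
    have := hT1.trans ((le_max_left T1 T2).trans (le_max_left _ ((4 * C2) ^ (1 / c2))))
    linarith
  have hTp : 0 < T := by linarith
  obtain ⟨L, hL⟩ : ∃ L : ℝ, L = Real.log T := ⟨_, rfl⟩
  rw [← hL] at hKh ⊢
  have hL0 : 0 < L := by rw [hL]; exact Real.log_pos (by linarith)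
  have hA : 0 < κ * L := by positivity
  have hκhL : 400 + a1 + Real.log (4 * C1 + 1) / c1 ≤ κ * (h * L) :=
    hKκ.trans (mul_le_mul_of_nonneg_left hKh hκ0.le)
  have hdiv : 0 ≤ Real.log (4 * C1 + 1) / c1 := by positivity
  have hκL : 400 ≤ κ * L := by
    have : κ * (h * L) ≤ κ * (1 * L) := by gcongr; linarith
    linarith
  have hA4 : 4 / (κ * L) ≤ 1 := by
    rw [div_le_iff₀ hA]; linarith
  have h4h : 4 / (κ * L) ≤ h := by
    rw [div_le_iff₀ hA]
    nlinarith
  -- it suffices to bound a bad set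
  have fin : ∀ bad : Set ℝ, volume bad ≤ ENNReal.ofReal (T / 4) →
      (∀ t, T < t → t < 2 * T - 1 → t ∉ bad → ∃ y : ℝ, t ≤ y ∧ y ≤ t + 4 / (κ * L) ∧ sh u h X (I * y) = 0) →
      κ / 16 * T * L ≤ S.card := by
    intro bad hb1 hb2
    have h1 := low_cov hA hA4 (by positivity) S bad hb1 hS hb2
    have h2 : T - 1 - T / 4 ≤ S.card * (4 / (κ * L)) := by linarith
    have h3 : (T - 1 - T / 4) * (κ * L) ≤ 4 * S.card := by
      have := mul_le_mul_of_nonneg_right h2 hA.le
      calc (T - 1 - T / 4) * (κ * L) ≤ S.card * (4 / (κ * L)) * (κ * L) := this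
        _ = 4 * S.card := by field_simp
    nlinarith
  rcases le_or_gt (κ' * h) (1 / 100) with hcase | hcase
  · refine fin _ ((Hg T h hTa ?_ hh ?_ ?_).trans (ENNReal.ofReal_le_ofReal ?_)) ?_
    · rw [← hL]
      have : κ * h * L = κ * (h * L) := by ring
      linarith
    · nlinarith
    · nlinarith
    · rw [← hL]
      have h1 : Real.exp (-(c1 * (κ * h * L))) ≤ 1 / (4 * C1 + 1) := by
        have h2 : Real.log (4 * C1 + 1) ≤ c1 * (κ * h * L) := by
          have h3 : Real.log (4 * C1 + 1) / c1 ≤ κ * (h * L) := by linarith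
          rw [div_le_iff₀ hc1] at h3
          linarith
        have h4 : Real.exp (-(c1 * (κ * h * L))) ≤ Real.exp (-Real.log (4 * C1 + 1)) := Real.exp_le_exp.2 (by linarith)
        rwa [Real.exp_neg (Real.log _), Real.exp_log (by linarith), inv_eq_one_div] at h4
      have h5 : C1 * T * Real.exp (-(c1 * (κ * h * L))) ≤ C1 * T * (1 / (4 * C1 + 1)) :=
        mul_le_mul_of_nonneg_left h1 (by positivity)
      refine h5.trans ?_
      rw [mul_one_div, div_le_iff₀ (by linarith)]
      nlinarith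
    · intro t ht1 ht2 ht3
      have hNN : NN (κ * h * L) (1 / 1000) (fun z => X (I * t + h * z)) := by
        by_contra hcon
        refine ht3 ⟨by linarith, by linarith, ?_⟩
        rw [← hL]
        exact hcon
      have hFar := farS_of_NN h0.diff hh hNN
      rw [show κ * h * L / h = κ * L by field_simp] at hFar
      refine some_zero h0.diff h0.symm (HS_convex _ _ _) hFar hA (by norm_num) le_rfl hu ?_
      intro s hs
      refine ⟨?_, (Complex.norm_le_abs_re_add_abs_im _).trans ?_⟩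
      · simp
        linarith
      · have e1 : ((h : ℂ) + I * t + s * I - I * t).re = h := by simp
        have e2 : ((h : ℂ) + I * t + s * I - I * t).im = s := by simp
        rw [e1, e2, abs_of_pos hh, abs_of_nonneg hs.1]
        have h5 := hs.2
        linarith
  · have hεh : ε0 ≤ h := by
      have h1 : ε0 * κ' < h * κ' := by rw [hε0κ]; linarith
      exact (lt_of_mul_lt_mul_right h1 hκ'0.le).le
    refine fin _ ((Ht T hTb).trans (ENNReal.ofReal_le_ofReal ?_)) ?_
    · have h1 : 4 * C2 ≤ T ^ c2 := by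
        have h2 := Real.rpow_le_rpow (by positivity) hTc hc2.le
        rwa [← Real.rpow_mul (by positivity), one_div, inv_mul_cancel₀ hc2.ne', Real.rpow_one] at h2
      rw [Real.rpow_sub hTp, Real.rpow_one, ← mul_div_assoc, div_le_iff₀ (by positivity)]
      nlinarith
    · intro t ht1 ht2 ht3
      have hFar : FarS X (κ * L) (1 / 1000) ε0 20 t := by
        by_contra hcon
        refine ht3 ⟨by linarith, by linarith, ?_⟩
        rw [← hL]
        exact hcon
      refine some_zero h0.diff h0.symm (HS_convex _ _ _) hFar hA (by norm_num) le_rfl hu ?_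
      intro s hs
      refine ⟨?_, (Complex.norm_le_abs_re_add_abs_im _).trans ?_⟩
      · simp
        linarith
      · have e1 : ((h : ℂ) + I * t + s * I - I * t).re = h := by simp
        have e2 : ((h : ℂ) + I * t + s * I - I * t).im = s := by simp
        rw [e1, e2, abs_of_pos hh, abs_of_nonneg hs.1]
        have h5 := hs.2
        linarith

end

end Pool.Agent.T6.H10.SA
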